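import Pool.Agent.Q36.SD.Lc
import Pool.Agent.Q36.PT.Fi

/-!
Fibrations with generic fibre of genus zero: uniruledness.
-/

set_option autoImplicit false
set_option linter.overlappingInstances false
set_option linter.unusedSectionVars false

open Polynomial FF IsDedekindDomain IntermediateField
open Pool.Agent.W603.LV Pool.Agent.W619.PQ Pool.Agent.W619.TW

namespace Q36.SD

section fg

variable {k F K : Type} [Field k] [Field F] [Field K] [Algebra k F] [Algebra k K] [Algebra F K]
  [IsScalarTower k F K]

/-- subfields of finite index of finitely generated fields are finitely generated -/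
theorem ess_below [FiniteDimensional F K] [hK : Algebra.EssFiniteType k K] :
    Algebra.EssFiniteType k F := by
  have hKF : Algebra.IsAlgebraic F K := inferInstance
  obtain ⟨s, hs⟩ := exists_isTranscendenceBasis k F
  -- the transcendence basis is finite
  have hfin : Set.Finite s := by
    have h1 : IsTranscendenceBasis k (algebraMap F K ∘ ((↑) : s → F)) := hs.algebraMap_comp
    have h2 : Algebra.trdeg k K < Cardinal.aleph0 := trdeg_lt_aleph0 k K
    have h3 := h1.cardinalMk_eq_trdeg
    rw [← h3] at h2
    exact Cardinal.lt_aleph0_iff_set_finite.1 h2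
  let A : IntermediateField k F := adjoin k s
  have hA : Algebra.EssFiniteType k A := by
    rw [essFiniteType_iff]
    exact ⟨hfin.toFinset, by rw [Set.Finite.coe_toFinset]⟩
  have t1 : IsScalarTower A F K := inferInstance
  have t2 : IsScalarTower k A K := IsScalarTower.of_algebraMap_eq fun x => by
    rw [IsScalarTower.algebraMap_apply k F K, IsScalarTower.algebraMap_apply A F K,
      ← IsScalarTower.algebraMap_apply k A F]
  have hAF : Algebra.IsAlgebraic A F := by
    have h1 := hs.isAlgebraic_field
    rwa [Subtype.range_coe] at h1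
  have hAK : Algebra.IsAlgebraic A K := Algebra.IsAlgebraic.trans A F K
  have hAess : Algebra.EssFiniteType A K := Algebra.EssFiniteType.of_comp k A K
  have hAKfin : Module.Finite A K := Algebra.finite_of_essFiniteType_of_isAlgebraic
  have hAFfin : Module.Finite A F := by
    refine Module.Finite.of_injective
      ((IsScalarTower.toAlgHom A F K).toLinearMap) (algebraMap F K).injective
  have hAFess : Algebra.EssFiniteType A F := inferInstance
  exact Algebra.EssFiniteType.comp k A F

/-- the transcendence degree of a subfield of finite index -/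
theorem trdeg_below [FiniteDimensional F K] {n : ℕ} (h : Algebra.trdeg k K = n) :
    Algebra.trdeg k F = n := by
  have h1 := trdeg_add_eq k F (A := K)
  have h2 : Algebra.trdeg F K = 0 := by
    rw [trdeg_eq_zero_iff]
    infer_instance
  rw [h2, add_zero, h] at h1
  exact h1

end fg

section

variable {k L : Type} [Field k] [CharZero k] [IsAlgClosed k] [Field L] [Algebra k L]

/-- **Uniruledness** of the fibrations with generic fibre of genus zero. -/
theorem uniruled_of_genusZero [Algebra.EssFiniteType k L] {n : ℕ} (hn : Algebra.trdeg k L = n)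
    (E : IntermediateField k L) (hE : Algebra.trdeg k E + 1 = n) (h : GenusZeroOver E) :
    IsUniruled k L n := by
  classical
  obtain ⟨A, _, _, hA, ⟨φ⟩⟩ := h
  let _ : Algebra k A := ((algebraMap E A).comp (algebraMap k E)).toAlgebra
  have st1 : IsScalarTower k E A := IsScalarTower.of_algebraMap_eq fun _ => rfl
  obtain ⟨S, hS⟩ := IntermediateField.fg_top k L
  let C : Finset A := S.biUnion fun s =>
    ((φ s).num.support.image fun i => (φ s).num.coeff i) ∪
      ((φ s).denom.support.image fun i => (φ s).denom.coeff i)
  let M : IntermediateField k A := IntermediateField.adjoin k (C : Set A)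
  have hM : Algebra.EssFiniteType k M := by
    rw [essFiniteType_iff]
    exact ⟨C, rfl⟩
  have hcoef : ∀ s ∈ S, (∀ i, (φ s).num.coeff i ∈ M) ∧ ∀ i, (φ s).denom.coeff i ∈ M := by
    intro s hs
    constructor
    · intro i
      by_cases h : (φ s).num.coeff i = 0
      · rw [h]
        exact zero_mem _
      · apply IntermediateField.subset_adjoin
        rw [Finset.mem_coe, Finset.mem_biUnion]
        exact ⟨s, hs, Finset.mem_union_left _ (Finset.mem_image_of_mem _
          (Polynomial.mem_support_iff.2 h))⟩
    · intro i
      by_cases h : (φ s).denom.coeff i = 0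
      · rw [h]
        exact zero_mem _
      · apply IntermediateField.subset_adjoin
        rw [Finset.mem_coe, Finset.mem_biUnion]
        exact ⟨s, hs, Finset.mem_union_right _ (Finset.mem_image_of_mem _
          (Polynomial.mem_support_iff.2 h))⟩
  -- the inclusion of the fields of rational functions
  have hle : (nonZeroDivisors M[X]) ≤
      (nonZeroDivisors A[X]).comap (Polynomial.mapRingHom (algebraMap M A)) :=
    nonZeroDivisors_le_comap_nonZeroDivisors_of_injective _
      (Polynomial.map_injective _ (algebraMap M A).injective)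
  let ι : RatFunc M →+* RatFunc A := RatFunc.mapRingHom (Polynomial.mapRingHom (algebraMap M A)) hle
  have hιd : ∀ p q : M[X], ι (algebraMap _ _ p / algebraMap _ _ q) =
      algebraMap _ _ (p.map (algebraMap M A)) / algebraMap _ _ (q.map (algebraMap M A)) :=
    fun p q => RatFunc.map_apply_div _ hle p q
  have hιp : ∀ p : M[X], ι (algebraMap _ _ p) = algebraMap _ _ (p.map (algebraMap M A)) := by
    intro p
    have h1 := hιd p 1
    rw [map_one, Polynomial.map_one, map_one, div_one, div_one] at h1
    exact h1
  have hιk : ∀ c : k, ι (algebraMap k (RatFunc M) c) = algebraMap k (RatFunc A) c := by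
    intro c
    have h1 : algebraMap k (RatFunc M) c = algebraMap M[X] _ (Polynomial.C (algebraMap k M c)) := by
      rw [RatFunc.algebraMap_C]
      rfl
    rw [h1, hιp, Polynomial.map_C, RatFunc.algebraMap_C]
    rfl
  have hφk : ∀ c : k, φ (algebraMap k L c) = algebraMap k (RatFunc A) c := by
    intro c
    have h1 : algebraMap k L c = algebraMap E L (algebraMap k E c) := rfl
    rw [h1, φ.commutes]
    rfl
  have hlift : ∀ p : A[X], (∀ i, p.coeff i ∈ M) → ∃ q : M[X], q.map (algebraMap M A) = p := by
    intro p hp
    have h1 : p ∈ Polynomial.lifts (algebraMap M A) := by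
      rw [Polynomial.lifts_iff_coeff_lifts]
      intro i
      exact ⟨⟨_, hp i⟩, rfl⟩
    exact (Polynomial.mem_lifts p).1 h1
  have hrange : ∀ y : L, ∃ z, ι z = φ y := by
    let R : IntermediateField k L :=
      { carrier := {y | ∃ z, ι z = φ y}
        mul_mem' := by
          rintro a b ⟨x, hx⟩ ⟨y, hy⟩
          exact ⟨x * y, by rw [map_mul, map_mul, hx, hy]⟩
        add_mem' := by
          rintro a b ⟨x, hx⟩ ⟨y, hy⟩
          exact ⟨x + y, by rw [map_add, map_add, hx, hy]⟩
        algebraMap_mem' := fun c => ⟨algebraMap k _ c, by rw [hιk, hφk]⟩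
        inv_mem' := by
          rintro a ⟨x, hx⟩
          exact ⟨x⁻¹, by rw [map_inv₀, map_inv₀, hx]⟩ }
    have h1 : (⊤ : IntermediateField k L) ≤ R := by
      rw [← hS, IntermediateField.adjoin_le_iff]
      intro s hs
      obtain ⟨p, hp⟩ := hlift _ (hcoef s hs).1
      obtain ⟨q, hq⟩ := hlift _ (hcoef s hs).2
      exact ⟨algebraMap _ _ p / algebraMap _ _ q, by rw [hιd, hp, hq, RatFunc.num_div_denom]⟩
    intro y
    exact h1 (by trivial : y ∈ (⊤ : IntermediateField k L))
  choose ψ hψ using hrange
  have hinj := ι.injective
  let ψ' : L →ₐ[k] RatFunc M :=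
    { toFun := ψ
      map_one' := hinj (by rw [hψ, map_one, map_one])
      map_mul' := fun a b => hinj (by rw [hψ, map_mul, map_mul, hψ, hψ])
      map_zero' := hinj (by rw [hψ, map_zero, map_zero])
      map_add' := fun a b => hinj (by rw [hψ, map_add, map_add, hψ, hψ])
      commutes' := fun c => hinj (by rw [hψ, hφk, hιk]) }
  refine ⟨M, inferInstance, inferInstance, hM, ?_, ⟨ψ'⟩⟩
  -- the transcendence degree
  have hFF : IsFF M (RatFunc M) := by
    refine IsFF.of_finite (f := (RatFunc.X : RatFunc M)) RatFunc.transcendental_X ?_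
    rw [RatFunc.adjoin_X]
    exact Module.Finite.of_surjective (Algebra.linearMap (⊤ : IntermediateField M (RatFunc M))
      (RatFunc M)) fun z => ⟨⟨z, trivial⟩, rfl⟩
  have h1 : Algebra.trdeg k L ≤ Algebra.trdeg k (RatFunc M) :=
    trdeg_le_of_injective ψ' ψ'.toRingHom.injective
  rw [← trdeg_add_eq k M (A := RatFunc M), hFF.trdeg, hn] at h1
  have h2 : Algebra.trdeg k M ≤ Algebra.trdeg k A :=
    trdeg_le_of_injective M.val M.val.toRingHom.injective
  have h3 := trdeg_add_eq k E (A := A)
  have h4 : Algebra.trdeg E A = 0 := by
    rw [trdeg_eq_zero_iff]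
    exact hA
  rw [h4, add_zero] at h3
  rw [← h3] at h2
  have h5 : Algebra.trdeg k M + 1 ≤ n := by
    rw [← hE]
    exact add_le_add_left h2 1
  exact le_antisymm h5 h1

end

end Q36.SD
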