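import Pool.Agent.Q36.SD.Ma
import Pool.Agent.Q36.SD.Un

/-!
Images of products of curves under maps of small degree: the equivalences.
-/

set_option autoImplicit false
set_option linter.overlappingInstances false
set_option linter.unusedSectionVars false

open Polynomial FF IsDedekindDomain IntermediateField
open Pool.Agent.W603.LV Pool.Agent.W619.PQ Pool.Agent.W619.PL Pool.Agent.W619.TW
  Pool.Agent.W619.X Pool.Agent.W619.Y Q36.PT

namespace Q36.SD

section

variable {k L M : Type} [Field k] [CharZero k] [IsAlgClosed k] [Field L] [Field M]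
  [Algebra k L] [Algebra k M] [Algebra L M] [IsScalarTower k L M] [FiniteDimensional L M]
  {n : ℕ} (F : Fin n → IntermediateField k M) [hF : ∀ i, IsFF k (F i)]

theorem pgZero_iff : PgZero k L n ↔ ¬ PlurigenusPos k L n 1 := by
  constructor
  · rintro h ⟨ω, h1, h2, D, hD⟩
    exact hD (h ω h1 h2 D)
  · intro h ω h1 h2 D
    by_contra hD
    exact h ⟨ω, h1, h2, D, hD⟩

/-- **Maps of degree smaller than the gonality.** -/
theorem pos_small (hnM : Algebra.trdeg k M = n) (hsup : ⨆ i, F i = ⊤)
    (hγ : ∀ i, ∀ b : F i, Transcendental k b → Module.finrank L M < Module.finrank k⟮b⟯ (F i)) :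
    PlurigenusPos k L n 1 := by
  classical
  by_contra hneg
  have hpg := pgZero_iff.2 hneg
  have hessM : Algebra.EssFiniteType k M := ess_of_sup F hsup
  have hessL : Algebra.EssFiniteType k L := ess_below (K := M)
  have hn : Algebra.trdeg k L = n := trdeg_below (K := M) hnM
  obtain ⟨y, E, hy, hE⟩ := Pool.Agent.Y172.exists_crd (k := k) (K := L) hn
  choose E' hE' using fun i => Pool.Agent.Y172.exists_lift (L := M) hn (E i)
  have hEd := Pool.Agent.Y172.lift_dual hE hE'
  choose t ht using fun i => IsFF.exists_transcendental (k := k) (K := F i)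
  have hbt := basis_of_iSup F hsup hnM t ht
  let D0 : ∀ i, Derivation k (F i) (F i) := fun i => der k (F i)
  have hD0 : ∀ i, D0 i ≠ 0 := fun i => der_ne
  have hD0t : ∀ i, D0 i (t i) ≠ 0 := fun i => der_ne_zero (hD0 i) (ht i)
  have hD0tM : ∀ i, ((D0 i (t i) : F i) : M) ≠ 0 := fun i h => hD0t i (Subtype.ext h)
  let T : Matrix (Fin n) (Fin n) M := Matrix.of fun a b => E' a (t b : M)
  have hT : T.det ≠ 0 := jac_ne hbt hEd
  let J : M := (∏ i, ((D0 i (t i) : F i) : M))⁻¹ * T.det
  have hJ : J ≠ 0 :=
    mul_ne_zero (inv_ne_zero (Finset.prod_ne_zero_iff.2 fun i _ => hD0tM i)) hT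
  have hrel : ∀ f : ∀ i, F i, (∀ i, RegDiff (D0 i) (f i)) →
      Algebra.trace L M (J * ∏ i, (f i : M)) = 0 := fun f hf => by
    rw [← trace_rel F hn hpg hD0 ht hf E E' hE']
    congr 1
    unfold wedge
    rw [Finset.prod_div_distrib]
    change (∏ i, ((D0 i (t i) : F i) : M))⁻¹ * T.det * _ = _ * T.det
    rw [div_eq_mul_inv]
    ring
  exact hJ (elim_small F hsup hD0 J hrel hγ)

/-- the equivalences -/
theorem tfae_small (hn1 : 1 ≤ n) (hnM : Algebra.trdeg k M = n) (hsup : ⨆ i, F i = ⊤)
    (hγ : ∀ i, ∀ b : F i, Transcendental k b →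
      Module.finrank L M + 3 ≤ 2 * Module.finrank k⟮b⟯ (F i)) :
    List.TFAE [¬ PlurigenusPos k L n 1, KodairaNeg k L n, ¬ IsPsef k L n (fun _ => False),
      NumNeg k L n (fun _ => False), IsUniruled k L n,
      ∃ i, (∀ j, j ≠ i → ∀ z ∈ F j, z ∈ Set.range (algebraMap L M)) ∧
        GenusZeroOver ((⨆ j : {j : Fin n // j ≠ i}, F j.1).comap
          (IsScalarTower.toAlgHom k L M))] := by
  classical
  have hessM : Algebra.EssFiniteType k M := ess_of_sup F hsup
  have hessL : Algebra.EssFiniteType k L := ess_below (K := M)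
  have hn : Algebra.trdeg k L = n := trdeg_below (K := M) hnM
  have heff : PlurigenusPos k L n 1 → IsPsef k L n (fun _ => False) := by
    intro h1
    by_contra h2
    exact not_neg_of_pos le_rfl h1 (kodairaNeg_of_not_eff.1 fun h3 => h2 (psef_of_eff h3))
  tfae_have 1 → 6 := fun h1 => small_degree F hn1 hn hsup (pgZero_iff.2 h1) hγ
  tfae_have 6 → 5 := by
    rintro ⟨i, hi, h⟩
    refine uniruled_of_genusZero hn _ ?_ h
    -- the transcendence degree of the base
    have hC := cur_MM F hsup hnM i
    have hM : CharZero (MM F i) := charZero_M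
    have h1 := trdeg_add_eq k (MM F i) (A := M)
    rw [hC.isFF.trdeg, hnM] at h1
    have hEL : MM F i ≤ (IsScalarTower.toAlgHom k L M).fieldRange := by
      refine iSup_le fun j z hz => ?_
      obtain ⟨y, hy⟩ := hi j.1 j.2 z hz
      exact ⟨y, hy⟩
    let ef : ((MM F i).comap (IsScalarTower.toAlgHom k L M)) →ₐ[k] MM F i :=
      { toFun := fun z => ⟨algebraMap L M (z : L), z.2⟩
        map_one' := Subtype.ext (by simp)
        map_mul' := fun a b => Subtype.ext (by simp)
        map_zero' := Subtype.ext (by simp)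
        map_add' := fun a b => Subtype.ext (by simp)
        commutes' := fun c => Subtype.ext (by
          change algebraMap L M (algebraMap k L c) = algebraMap k M c
          rw [← IsScalarTower.algebraMap_apply]) }
    have hefb : Function.Bijective ef := by
      refine ⟨ef.toRingHom.injective, fun z => ?_⟩
      obtain ⟨y, hy⟩ := hEL z.2
      have hy' : algebraMap L M y = z := hy
      refine ⟨⟨y, ?_⟩, Subtype.ext hy'⟩
      change algebraMap L M y ∈ MM F i
      rw [hy']
      exact z.2
    have h2 := (AlgEquiv.ofBijective ef hefb).trdeg_eq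
    change Algebra.trdeg k ((MM F i).comap (IsScalarTower.toAlgHom k L M)) + 1 = n
    rw [h2, h1]
  tfae_have 5 → 3 := fun h1 => (uniruled_neg n hn h1).1
  tfae_have 5 → 4 := fun h1 => (uniruled_neg n hn h1).2
  tfae_have 3 → 2 := fun h1 => kodairaNeg_of_not_eff.1 fun h3 => h1 (psef_of_eff h3)
  tfae_have 2 → 1 := fun h1 h2 => not_neg_of_pos le_rfl h2 h1
  tfae_have 4 → 1 := by
    intro h1 h2
    obtain ⟨ω, h3, h4, D, hD⟩ := h2
    obtain ⟨m0, hm0⟩ := h1 {1}
    refine hm0 (1 * m0) (by omega) ?_
    refine ⟨fun _ => fun D => ω D ^ m0, ?_, fun _ => ⟨?_, ?_, ?_⟩⟩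
    · refine LinearIndependent.of_subsingleton 0 ?_
      intro h5
      exact pow_ne_zero m0 hD (congrFun h5 D)
    · intro A D
      change ω _ ^ m0 = _
      rw [h3 A D, mul_pow, ← pow_mul]
    · intro v hv _ D hD
      rcases h4 v hv D hD with h5 | h5
      · change Dom v {1} 1 (ω D ^ m0)
        rw [h5]
        rcases Nat.eq_zero_or_pos m0 with rfl | h6
        · exact Or.inr ⟨1, by simp, one_ne_zero, by rw [pow_zero, v.ord_one]; simp⟩
        · exact Or.inl (zero_pow (by omega))
      · exact Or.inr ⟨1, by simp, one_ne_zero, by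
          rw [v.ord_pow, v.ord_one]
          have : (0 : ℤ) ≤ m0 * v.ord (ω D) := mul_nonneg (by positivity) h5
          simpa using this⟩
    · intro v _ hB
      exact absurd hB id
  tfae_finish

end

end Q36.SD
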