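import Pool.Agent.Q36.SD.Rl

/-!
Specialisation: finitely many embeddings of the function field of a curve impose independent
conditions on the regular differentials, if their number is smaller than the gonality.
-/

set_option autoImplicit false
set_option linter.overlappingInstances false
set_option linter.unusedSectionVars false

open Polynomial FF IsDedekindDomain IntermediateField
open Pool.Agent.W603.LV Pool.Agent.W619.PQ

namespace Q36.SD

/-- a point of an affine variety -/
theorem exists_point {k E : Type} [Field k] [IsAlgClosed k] [Field E] [Algebra k E] (S : Set E)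
    (hS : S.Finite) : Nonempty (Algebra.adjoin k S →ₐ[k] k) := by
  have hft : Algebra.FiniteType k (Algebra.adjoin k S) :=
    (Subalgebra.fg_iff_finiteType _).1 ⟨hS.toFinset, by simp⟩
  obtain ⟨m, hm⟩ := Ideal.exists_maximal (Algebra.adjoin k S)
  let _ : Field (Algebra.adjoin k S ⧸ m) := Ideal.Quotient.field m
  have hfin : Module.Finite k (Algebra.adjoin k S ⧸ m) :=
    finite_of_finite_type_of_isJacobsonRing k (Algebra.adjoin k S ⧸ m)
  have halg : Algebra.IsAlgebraic k (Algebra.adjoin k S ⧸ m) := Algebra.IsAlgebraic.of_finite k _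
  exact ⟨(IsAlgClosed.lift : (Algebra.adjoin k S ⧸ m) →ₐ[k] k).comp (Ideal.Quotient.mkₐ k m)⟩

section

variable {k F : Type} [Field k] [Field F] [Algebra k F] [CharZero k] [IsFF k F] [IsAlgClosed k]

/-- the place of a point of an affine curve -/
theorem exists_place_hom {x : F} (hx : Transcendental k x)
    (θ : integralClosure (Algebra.adjoin k {x}) F →+* k)
    (hθ : ∀ c : k, θ (algebraMap (Algebra.adjoin k {x}) _ (algebraMap k _ c)) = c) :
    ∃ P : Place k F, P.Reg x ∧
      ∀ b : integralClosure (Algebra.adjoin k {x}) F, Ge P 1 ((b : F) - algebraMap k F (θ b)) := by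
  open scoped algebraAdjoinAdjoin in
  classical
  let A := Algebra.adjoin k {x}
  let e := Polynomial.algEquivOfTranscendental k x hx
  have hpid : IsPrincipalIdealRing A := IsPrincipalIdealRing.of_surjective e.toRingEquiv e.surjective
  have hfin := IsFF.finite hx
  have hchar : CharZero k⟮x⟯ := charZero_of_injective_algebraMap (algebraMap k k⟮x⟯).injective
  have hsep : Algebra.IsSeparable k⟮x⟯ F := inferInstance
  let B := integralClosure A F
  have : IsDedekindDomain B := integralClosure.isDedekindDomain A k⟮x⟯ F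
  have : IsFractionRing B F := integralClosure.isFractionRing_of_finite_extension k⟮x⟯ F
  let θ' : B →+* k := θ
  let X : B := algebraMap A B ⟨x, Algebra.self_mem_adjoin_singleton k x⟩
  have hker : RingHom.ker θ' ≠ ⊥ := by
    intro h
    have h1 : X - algebraMap A B (algebraMap k A (θ' X)) ∈ RingHom.ker θ' := by
      rw [RingHom.mem_ker, map_sub]
      have := hθ (θ' X)
      change θ' X - θ' _ = 0
      rw [sub_eq_zero]
      exact this.symm
    rw [h, Ideal.mem_bot, sub_eq_zero] at h1
    have h2 := congrArg (algebraMap B F) h1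
    apply hx
    have h3 : x = algebraMap k F (θ' X) := h2
    rw [h3]
    exact isAlgebraic_algebraMap _
  let P : HeightOneSpectrum B := ⟨RingHom.ker θ', RingHom.ker_isPrime θ', hker⟩
  refine ⟨placeOf (k := k) (L := F) P, placeOf_reg (k := k) (L := F) P X, fun b => ?_⟩
  have h1 : b - algebraMap A B (algebraMap k A (θ' b)) ∈ P.asIdeal := by
    change _ ∈ RingHom.ker θ'
    rw [RingHom.mem_ker, map_sub, sub_eq_zero]
    exact (hθ (θ' b)).symm
  rw [← placeOf_red_eq_zero (k := k) (L := F) P, Place.red_eq_zero_iff _ (placeOf_reg P _)] at h1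
  rcases h1 with h1 | h1
  · left
    exact h1
  · right
    exact h1

/-- generators of the coordinate ring of an affine curve -/
theorem exists_gens {x : F} (hx : Transcendental k x) :
    ∃ G : Finset F, ∀ z : F, IsIntegral (Algebra.adjoin k {x}) z →
      z ∈ Algebra.adjoin k (G : Set F) := by
  open scoped algebraAdjoinAdjoin in
  classical
  let A := Algebra.adjoin k {x}
  let e := Polynomial.algEquivOfTranscendental k x hx
  have hpid : IsPrincipalIdealRing A := IsPrincipalIdealRing.of_surjective e.toRingEquiv e.surjective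
  have hfin := IsFF.finite hx
  have hchar : CharZero k⟮x⟯ := charZero_of_injective_algebraMap (algebraMap k k⟮x⟯).injective
  have hsep : Algebra.IsSeparable k⟮x⟯ F := inferInstance
  let B := integralClosure A F
  have hB : Module.Finite A B := IsIntegralClosure.finite A k⟮x⟯ F B
  obtain ⟨S, hS⟩ := hB
  refine ⟨insert x (S.image fun b : B => (b : F)), fun z hz => ?_⟩
  have h1 : (⟨z, hz⟩ : B) ∈ Submodule.span A (S : Set B) := by
    rw [hS]
    trivial
  have key : ∀ b : B, b ∈ Submodule.span A (S : Set B) →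
      (b : F) ∈ Algebra.adjoin k ((insert x (S.image fun b : B => (b : F)) : Finset F) : Set F) := by
    intro b hb
    induction hb using Submodule.span_induction with
    | mem y hy =>
      apply Algebra.subset_adjoin
      rw [Finset.coe_insert, Finset.coe_image]
      exact Or.inr ⟨y, hy, rfl⟩
    | zero => exact zero_mem _
    | add y z _ _ hy hz => exact add_mem hy hz
    | smul a y _ hy =>
      have h2 : ((a • y : B) : F) = (a : F) * (y : F) := by
        rw [Algebra.smul_def]
        rfl
      rw [h2]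
      refine mul_mem ?_ hy
      have h3 : Algebra.adjoin k {x} ≤
          Algebra.adjoin k ((insert x (S.image fun b : B => (b : F)) : Finset F) : Set F) := by
        apply Algebra.adjoin_mono
        rw [Finset.coe_insert]
        intro y hy
        exact Or.inl hy
      exact h3 a.2
  exact key _ h1

/-- **Specialisation.** -/
theorem exists_spec {Ω : Type} [Field Ω] [Algebra k Ω] {ι : Type} [Fintype ι]
    (φ : ι → (F →ₐ[k] Ω)) (hφ : Function.Injective φ) (Z : Finset F) (W : Finset Ω)
    (Bad : Finset (Place k F)) :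
    ∃ (P : ι → Place k F) (A : Subalgebra k Ω) (ψ : A →ₐ[k] k), Function.Injective P ∧
      (∀ i, P i ∉ Bad) ∧ (∀ w ∈ W, ∃ h : w ∈ A, w ≠ 0 → ψ ⟨w, h⟩ ≠ 0) ∧
      ∀ z ∈ Z, ∀ i, ∃ h : φ i z ∈ A, Ge (P i) 1 (z - algebraMap k F (ψ ⟨φ i z, h⟩)) := by
  open scoped algebraAdjoinAdjoin in
  classical
  obtain ⟨x, hx⟩ := IsFF.exists_transcendental (k := k) (K := F)
  obtain ⟨G, hG⟩ := exists_gens (k := k) hx
  let A0 := Algebra.adjoin k {x}
  let e := Polynomial.algEquivOfTranscendental k x hx
  have hpid : IsPrincipalIdealRing A0 :=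
    IsPrincipalIdealRing.of_surjective e.toRingEquiv e.surjective
  have hfin := IsFF.finite hx
  have hchar : CharZero k⟮x⟯ := charZero_of_injective_algebraMap (algebraMap k k⟮x⟯).injective
  have hsep : Algebra.IsSeparable k⟮x⟯ F := inferInstance
  let B := integralClosure A0 F
  have : IsFractionRing B F := integralClosure.isFractionRing_of_finite_extension k⟮x⟯ F
  -- fractions
  have hfrac : ∀ z : F, ∃ u v : B, (v : F) ≠ 0 ∧ z * (v : F) = u := by
    intro z
    obtain ⟨u, v, hv, rfl⟩ := IsFractionRing.div_surjective (A := B) z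
    have hv0 : (v : F) ≠ 0 := by
      intro h
      exact nonZeroDivisors.ne_zero hv (Subtype.ext h)
    refine ⟨u, v, hv0, ?_⟩
    change (u : F) / (v : F) * (v : F) = u
    field_simp
  choose u v hv huv using hfrac
  -- separating elements
  have hsepz : ∀ i j : ι, ∃ z : F, i ≠ j → φ i z ≠ φ j z := by
    intro i j
    by_cases hij : i = j
    · exact ⟨0, fun h => absurd hij h⟩
    · have h1 : φ i ≠ φ j := fun h => hij (hφ h)
      by_contra hcon
      push Not at hcon
      apply h1
      ext z
      exact (hcon z).2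
  choose sz hsz using hsepz
  have hres : ∀ Q : Place k F, ∃ c : k, Q.Reg x → Ge Q 1 (x - algebraMap k F c) := by
    intro Q
    by_cases h : Q.Reg x
    · obtain ⟨c, hc⟩ := exists_const Q (f := x) h
      exact ⟨c, fun _ => hc⟩
    · exact ⟨0, fun h' => absurd h' h⟩
  choose cQ hcQ using hres
  let Z' : Finset F := Z ∪ (Finset.univ.image fun p : ι × ι => sz p.1 p.2)
  let S : Set Ω := (⋃ i, φ i '' (G : Set F)) ∪ (⋃ i, (fun z => (φ i (v z : F))⁻¹) '' (Z' : Set F)) ∪
    (⋃ i, (fun Q => (φ i (x - algebraMap k F (cQ Q)))⁻¹) '' (Bad : Set (Place k F))) ∪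
    ((W : Set Ω) ∪ (fun w => w⁻¹) '' (W : Set Ω)) ∪
    Set.range (fun p : ι × ι => (φ p.1 (sz p.1 p.2) - φ p.2 (sz p.1 p.2))⁻¹)
  have hSfin : S.Finite := by
    refine (((Set.Finite.union ?_ ?_).union ?_).union ?_).union ?_
    · exact Set.finite_iUnion fun i => (G.finite_toSet.image _)
    · exact Set.finite_iUnion fun i => (Z'.finite_toSet.image _)
    · exact Set.finite_iUnion fun i => (Bad.finite_toSet.image _)
    · exact W.finite_toSet.union (W.finite_toSet.image _)
    · exact Set.finite_range _
  obtain ⟨ψ⟩ := exists_point (k := k) S hSfin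
  have hSA : S ⊆ Algebra.adjoin k S := Algebra.subset_adjoin
  have hinv : ∀ (w : Ω) (h : w ∈ Algebra.adjoin k S), w⁻¹ ∈ Algebra.adjoin k S → w ≠ 0 →
      ψ ⟨w, h⟩ ≠ 0 := by
    intro w h h' hw h0
    have h1 : (⟨w, h⟩ : Algebra.adjoin k S) * ⟨w⁻¹, h'⟩ = 1 := Subtype.ext (mul_inv_cancel₀ hw)
    have h2 := congrArg ψ h1
    rw [map_mul, h0, zero_mul, map_one] at h2
    exact zero_ne_one h2
  -- the elements of the coordinate ring
  have hmemB : ∀ (i : ι) (b : F), IsIntegral A0 b → φ i b ∈ Algebra.adjoin k S := by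
    intro i b hb
    have h1 := hG b hb
    have h2 : Algebra.adjoin k (G : Set F) ≤ (Algebra.adjoin k S).comap (φ i) := by
      rw [Algebra.adjoin_le_iff]
      intro g hg
      apply hSA
      left; left; left; left
      exact Set.mem_iUnion.2 ⟨i, g, hg, rfl⟩
    exact h2 h1
  let θ : ∀ _ : ι, B →+* k := fun i =>
    (ψ : Algebra.adjoin k S →+* k).comp
      (((φ i : F →+* Ω).comp (algebraMap B F)).codRestrict (Algebra.adjoin k S)
        fun b => hmemB i (b : F) b.2)
  have hθ : ∀ i (b : B), θ i b = ψ ⟨φ i (b : F), hmemB i _ b.2⟩ := fun i b => rfl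
  have hθc : ∀ i (c : k), θ i (algebraMap A0 _ (algebraMap k _ c)) = c := by
    intro i c
    rw [hθ]
    have h1 : (⟨φ i ((algebraMap A0 B (algebraMap k A0 c) : B) : F), hmemB i _ (Subtype.property _)⟩ :
        Algebra.adjoin k S) = algebraMap k _ c := by
      apply Subtype.ext
      change φ i (algebraMap k F c) = algebraMap k Ω c
      exact (φ i).commutes c
    rw [h1]
    exact ψ.commutes c
  choose P hPx hPb using fun i => exists_place_hom hx (θ i) (hθc i)
  have hval : ∀ z ∈ Z', ∀ i, ∃ h : φ i z ∈ Algebra.adjoin k S,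
      Ge (P i) 1 (z - algebraMap k F (ψ ⟨φ i z, h⟩)) := by
    intro z hz i
    have hvi : (φ i (v z : F))⁻¹ ∈ Algebra.adjoin k S := by
      apply hSA
      left; left; left; right
      exact Set.mem_iUnion.2 ⟨i, z, hz, rfl⟩
    have hvm := hmemB i (v z : F) (v z).2
    have hum := hmemB i (u z : F) (u z).2
    have hφv : φ i (v z : F) ≠ 0 := by
      rw [Ne, map_eq_zero]
      exact hv z
    have hφz : φ i z = φ i (u z : F) * (φ i (v z : F))⁻¹ := by
      rw [← huv z, map_mul]
      field_simp
    have hmem : φ i z ∈ Algebra.adjoin k S := by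
      rw [hφz]
      exact mul_mem hum hvi
    refine ⟨hmem, ?_⟩
    have hθv : θ i (v z) ≠ 0 := hinv _ hvm hvi hφv
    have hc : ψ ⟨φ i z, hmem⟩ * θ i (v z) = θ i (u z) := by
      rw [hθ, hθ, ← map_mul]
      congr 1
      apply Subtype.ext
      change φ i z * φ i (v z : F) = φ i (u z : F)
      rw [← map_mul, huv]
    set c := ψ ⟨φ i z, hmem⟩ with hcdef
    have h1 : (v z : F) * (z - algebraMap k F c) = ((u z : F) - algebraMap k F (θ i (u z))) -
        algebraMap k F c * ((v z : F) - algebraMap k F (θ i (v z))) := by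
      have h2 : algebraMap k F (θ i (u z)) = algebraMap k F c * algebraMap k F (θ i (v z)) := by
        rw [← map_mul, hc]
      rw [h2, ← huv z]
      ring
    have hv0 : (P i).ord (v z : F) = 0 := by
      have h3 := hPb i (v z)
      have hne : algebraMap k F (θ i (v z)) ≠ 0 := by simpa using hθv
      by_cases h4 : (v z : F) - algebraMap k F (θ i (v z)) = 0
      · rw [sub_eq_zero.1 h4]
        exact (P i).ord_const hθv
      · have h5 := h3.resolve_left h4
        have h6 := (P i).ord_add_eq hne h4 (by rw [(P i).ord_const hθv]; omega)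
        rw [add_sub_cancel, (P i).ord_const hθv] at h6
        exact h6.2
    have h7 : Ge (P i) (1 + 0) ((v z : F) * (z - algebraMap k F c)) := by
      rw [h1, add_zero]
      refine (hPb i (u z)).sub ?_
      have := (Ge.const (P := P i) c).mul (hPb i (v z))
      simpa using this
    exact Ge.of_mul' (hv z) hv0 h7
  refine ⟨P, Algebra.adjoin k S, ψ, ?_, ?_, ?_, ?_⟩
  · intro i j hij
    by_contra hne
    have hz : sz i j ∈ Z' := Finset.mem_union_right _ (Finset.mem_image.2 ⟨(i, j), by simp, rfl⟩)
    obtain ⟨h1, h2⟩ := hval _ hz i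
    obtain ⟨h3, h4⟩ := hval _ hz j
    rw [← hij] at h4
    have h5 := h4.sub h2
    have h6 : (sz i j - algebraMap k F (ψ ⟨φ j (sz i j), h3⟩)) -
        (sz i j - algebraMap k F (ψ ⟨φ i (sz i j), h1⟩)) =
        algebraMap k F (ψ ⟨φ i (sz i j), h1⟩ - ψ ⟨φ j (sz i j), h3⟩) := by
      rw [map_sub]
      ring
    rw [h6, ← map_sub] at h5
    have h7 : ψ ((⟨φ i (sz i j), h1⟩ : Algebra.adjoin k S) - ⟨φ j (sz i j), h3⟩) ≠ 0 := by
      refine hinv _ (sub_mem h1 h3) ?_ (sub_ne_zero.2 (hsz i j hne))
      apply hSA
      right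
      exact ⟨(i, j), rfl⟩
    rcases h5 with h5 | h5
    · rw [map_eq_zero] at h5
      exact h7 h5
    · rw [(P i).ord_const h7] at h5
      omega
  · intro i hi
    have hr := hcQ (P i) (hPx i)
    have hxm : IsIntegral A0 (x - algebraMap k F (cQ (P i))) := by
      refine IsIntegral.sub ?_ ?_
      · exact isIntegral_algebraMap (R := A0) (x := ⟨x, Algebra.self_mem_adjoin_singleton k x⟩)
      · exact isIntegral_algebraMap (R := A0) (x := algebraMap k A0 (cQ (P i)))
    have h1 := hPb i ⟨_, hxm⟩
    have hne : x - algebraMap k F (cQ (P i)) ≠ 0 := sub_const_ne hx _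
    have h2 : θ i ⟨_, hxm⟩ ≠ 0 := by
      rw [hθ]
      refine hinv _ (hmemB i _ hxm) ?_ (by rw [Ne, map_eq_zero]; exact hne)
      apply hSA
      left; left; right
      exact Set.mem_iUnion.2 ⟨i, P i, hi, rfl⟩
    have h3 := hr.sub h1
    have h4 : (x - algebraMap k F (cQ (P i))) - ((⟨_, hxm⟩ : B) : F) +
      algebraMap k F (θ i ⟨_, hxm⟩) = algebraMap k F (θ i ⟨_, hxm⟩) := by
      change (x - algebraMap k F (cQ (P i))) - (x - algebraMap k F (cQ (P i))) + _ = _
      rw [sub_self, zero_add]
    rw [← sub_add, h4] at h3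
    rcases h3 with h3 | h3
    · rw [map_eq_zero] at h3
      exact h2 h3
    · rw [(P i).ord_const h2] at h3
      omega
  · intro w hw
    refine ⟨hSA ?_, fun hw0 => hinv _ _ (hSA ?_) hw0⟩
    · left; right; left
      exact hw
    · left; right; right
      exact ⟨w, hw, rfl⟩
  · intro z hz i
    exact hval z (Finset.mem_union_left _ hz) i

end

end Q36.SD
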