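import Pool.Agent.Y692.NT.Tr
import Pool.Agent.W619.TW.Span
import Pool.Agent.W619.PQ.Genus

/-!
Regular differentials on a curve with prescribed vanishing orders at few points: the part of the
theorem of Riemann and Roch which is used below.
-/

set_option autoImplicit false
set_option linter.overlappingInstances false
set_option linter.unusedSectionVars false

open Polynomial FF IsDedekindDomain IntermediateField
open Pool.Agent.W603.LV Pool.Agent.W619.PQ

namespace Q36.SD

section

variable {k F : Type} [Field k] [Field F] [Algebra k F] [CharZero k] [IsFF k F] [IsAlgClosed k]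

/-- the regularity of the multiplier at the poles of `x` -/
theorem pole_bound {x : F} (hx : Transcendental k x) (D : Derivation k F F) (hD : D x = 1)
    (lam : F →ₗ[k] k) (hI : ∀ y ∈ BI (k := k) x, lam y = 0)
    {f : F} (hf0 : f ≠ 0)
    (hf : ∀ y, iota hx (Algebra.trace k⟮x⟯ F (f * y)) = SS lam hI y) (P : Place k F)
    (hPx : P.ord x < 0) : vo P D ≤ P.ord f := by
  classical
  have hD0 : D ≠ 0 := by
    rintro rfl
    simp at hD
  have hfin := IsFF.finite hx
  have hx0 : x ≠ 0 := by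
    rintro rfl
    exact hx isAlgebraic_zero
  by_contra hcon
  push Not at hcon
  have hsF : IsScalarTower k k⟮x⟯ F := inferInstance
  let xx : k⟮x⟯ := ⟨x, mem_adjoin_simple_self k x⟩
  obtain ⟨e0, q, hq⟩ := exists_over (K := k⟮x⟯) P ⟨xx, by
    change P.ord x ≠ 0; omega⟩
  have hvo := (ord_der P hD0 (f := x) (by omega)).2
  rw [hD, P.ord_one] at hvo
  have hh0 : x * f ≠ 0 := mul_ne_zero hx0 hf0
  have hfs := finite_support (k := k) x
  have hqx : q.ord xx < 0 := by
    have h1 := hq.2 xx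
    have h2 : P.ord (algebraMap k⟮x⟯ F xx) = P.ord x := rfl
    have h3 := hq.1
    by_contra hcon
    push Not at hcon
    have : (0 : ℤ) ≤ e0 * q.ord xx := by positivity
    omega
  obtain ⟨b, hb1, hb2⟩ := exists_contra q P e0 hq (hfs.toFinset.filter fun w => w.ord x < 0)
    (by
      intro w e hw
      have h1 := hw.2 xx
      have h2 : w.ord (algebraMap k⟮x⟯ F xx) = w.ord x := rfl
      have h3 := hw.1
      have h4 : (e : ℤ) * q.ord xx < 0 := mul_neg_of_pos_of_neg (by exact_mod_cast h3) hqx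
      rw [Finset.mem_filter, hfs.mem_toFinset]
      refine ⟨?_, by omega⟩
      show w.ord x ≠ 0
      omega)
    (x * f) hh0 (by rw [P.ord_mul hx0 hf0]; omega)
  apply hb2
  have hbI : b ∈ BI (k := k) x := by
    intro w hw
    apply hb1
    rw [Finset.mem_filter, hfs.mem_toFinset]
    refine ⟨?_, hw⟩
    show w.ord x ≠ 0
    omega
  set r := Algebra.trace k⟮x⟯ F (f * b) with hr
  have h5 : Algebra.trace k⟮x⟯ F (x * f * b) = xx * r := by
    rw [hr, mul_assoc]
    exact trace_mul_left xx (f * b)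
  rw [h5]
  have h6 : ∀ j : ℤ, j < 2 → (iota hx r).coeff j = 0 := by
    intro j hj
    rw [hf b, SS_coeff]
    apply hI
    intro w hw
    obtain ⟨n, hn⟩ := Int.eq_ofNat_of_zero_le (show 0 ≤ -(j - 1) by omega)
    have h7 : j - 1 = -(n : ℤ) := by omega
    rw [h7]
    have h8 : Ge w 0 (x ^ (-(n : ℤ))) := by
      right
      rw [w.ord_zpow]
      exact mul_nonneg_of_nonpos_of_nonpos (by omega) (by omega)
    simpa using h8.mul (hbI w hw)
  by_cases hr0 : r = 0
  · left; rw [hr0, mul_zero]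
  obtain ⟨p, g, hg, hpg⟩ := exists_px_div r
  have hp : p ≠ 0 := by
    rintro rfl
    rw [map_zero, mul_eq_zero] at hpg
    rcases hpg with h | h
    · exact hr0 h
    · exact hg (px_injective hx (by rw [h, map_zero]))
  have h7 := congrArg (iota hx) hpg
  rw [map_mul, iota_px, iota_px] at h7
  have h8 : 2 ≤ (iota hx r).order := by
    by_contra hlt
    push Not at hlt
    have h9 := h6 _ hlt
    rw [HahnSeries.coeff_order_eq_zero, map_eq_zero] at h9
    exact hr0 h9
  have h9 := congrArg HahnSeries.order h7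
  rw [HahnSeries.order_mul (by rwa [Ne, map_eq_zero]) (eU_ne hg), order_eU hg, order_eU hp] at h9
  have h10 := congrArg (fun z : k⟮x⟯ => P.ord (algebraMap k⟮x⟯ F z)) hpg
  simp only [map_mul] at h10
  have h11 : ∀ s : k[X], algebraMap k⟮x⟯ F (px x s) = aeval x s := coe_px
  rw [h11, h11, P.ord_mul (by simpa using hr0) (ord_aeval_of_neg P hPx hg).1,
    (ord_aeval_of_neg P hPx hg).2, (ord_aeval_of_neg P hPx hp).2] at h10
  right
  have h12 : P.ord (algebraMap k⟮x⟯ F (xx * r)) = P.ord x + P.ord (algebraMap k⟮x⟯ F r) := by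
    rw [map_mul, P.ord_mul _ (by simpa using hr0)]
    · rfl
    · change x ≠ 0; exact hx0
  rw [hq.2] at h12
  have h13 : (2 : ℤ) ≤ (g.natDegree : ℤ) - p.natDegree := by omega
  have h14 : P.ord (algebraMap k⟮x⟯ F r) = -(((g.natDegree : ℤ) - p.natDegree) * P.ord x) := by
    linarith
  have h15 : ((g.natDegree : ℤ) - p.natDegree) * P.ord x ≤ 2 * P.ord x := by
    apply mul_le_mul_of_nonpos_right h13 hPx.le
  have h16 : (0 : ℤ) < e0 * q.ord (xx * r) := by omega
  have h17 := (pos_iff_pos_of_mul_pos h16).1 (by exact_mod_cast hq.1)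
  omega

/-- the vanishing of the multiplier at the poles of `x` -/
theorem pole_vanish {x : F} (hx : Transcendental k x) (D : Derivation k F F) (hD : D x = 1)
    (lam : F →ₗ[k] k) (n : Place k F → ℕ) (hI : ∀ y ∈ BI (k := k) x, lam y = 0)
    (hI' : ∀ y : F, (∀ P : Place k F, P.ord x < 0 → Ge P (-(n P : ℤ)) y) → lam y = 0)
    {f : F} (hf0 : f ≠ 0)
    (hf : ∀ y, iota hx (Algebra.trace k⟮x⟯ F (f * y)) = SS lam hI y) (P : Place k F)
    (hPx : P.ord x < 0) : vo P D + n P ≤ P.ord f := by
  classical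
  obtain ⟨S, hS, -⟩ := poles (k := k) (K := F) hx
  obtain ⟨π, hπ0, hπ⟩ := P.surj
  -- an element with the prescribed order
  obtain ⟨a, ha0, haP, haS⟩ : ∃ a : F, a ≠ 0 ∧ P.ord a = -(n P : ℤ) ∧
      ∀ Q : Place k F, Q.ord x < 0 → Ge Q (-(n Q : ℤ)) a := by
    rcases Nat.eq_zero_or_pos (n P) with h0 | hpos
    · refine ⟨1, one_ne_zero, by rw [P.ord_one, h0]; simp, fun Q _ => Or.inr ?_⟩
      rw [Q.ord_one]
      omega
    · obtain ⟨b, hb1, hb2⟩ := approx_one (S.erase P) P (by simp) (π ^ (-(n P : ℤ))) 0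
      have hπn : π ^ (-(n P : ℤ)) ≠ 0 := zpow_ne_zero _ hπ0
      have hord : P.ord (π ^ (-(n P : ℤ))) = -(n P : ℤ) := by rw [P.ord_zpow, hπ, mul_one]
      have h2 : b ≠ 0 ∧ P.ord b = -(n P : ℤ) := by
        by_cases h3 : b - π ^ (-(n P : ℤ)) = 0
        · rw [sub_eq_zero.1 h3]
          exact ⟨hπn, hord⟩
        · have h4 := hb1.resolve_left h3
          have h5 := P.ord_add_eq (f := π ^ (-(n P : ℤ))) (g := b - π ^ (-(n P : ℤ))) hπn h3
            (by omega)
          rwa [add_sub_cancel, hord] at h5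
      refine ⟨b, h2.1, h2.2, fun Q hQ => ?_⟩
      by_cases hQP : Q = P
      · rw [hQP]
        exact Or.inr h2.2.ge
      · exact (hb2 Q (Finset.mem_erase.2 ⟨hQP, (hS Q).2 hQ⟩)).mono (by omega)
  let lam' : F →ₗ[k] k := lam.comp (LinearMap.mulLeft k a)
  have hlam' : ∀ y, lam' y = lam (a * y) := fun y => rfl
  have hI2 : ∀ y ∈ BI (k := k) x, lam' y = 0 := by
    intro y hy
    rw [hlam']
    refine hI' _ fun Q hQ => ?_
    simpa using (haS Q hQ).mul (hy Q hQ)
  have h1 := pole_bound hx D hD lam' hI2 (f := f * a) (mul_ne_zero hf0 ha0) (fun y => by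
    rw [mul_assoc, hf]
    ext j
    rw [SS_coeff, SS_coeff, hlam']
    congr 1
    ring) P hPx
  rw [P.ord_mul hf0 ha0, haP] at h1
  omega

/-- the coefficient at infinity of the trace of a regular differential -/
theorem coeff_trace {x : F} (hx : Transcendental k x) (D : Derivation k F F) (hD : D x = 1)
    {z : F} (hz : ∀ P : Place k F, P.ord x < 0 → Ge P (vo P D) z) (P0 : Place k F)
    (hP0 : P0.ord x < 0) :
    (iota hx (Algebra.trace k⟮x⟯ F z)).coeff 1 = 0 := by
  classical
  have hD0 : D ≠ 0 := by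
    rintro rfl
    simp at hD
  have hfin := IsFF.finite hx
  have hx0 : x ≠ 0 := by
    rintro rfl
    exact hx isAlgebraic_zero
  have hsF : IsScalarTower k k⟮x⟯ F := inferInstance
  let xx : k⟮x⟯ := ⟨x, mem_adjoin_simple_self k x⟩
  obtain ⟨e0, q, hq⟩ := exists_over (K := k⟮x⟯) P0 ⟨xx, by
    change P0.ord x ≠ 0; omega⟩
  have hqx : q.ord xx < 0 := by
    have h1 := hq.2 xx
    have h2 : P0.ord (algebraMap k⟮x⟯ F xx) = P0.ord x := rfl
    have h3 := hq.1
    by_contra hcon
    push Not at hcon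
    have : (0 : ℤ) ≤ e0 * q.ord xx := by positivity
    omega
  set r := Algebra.trace k⟮x⟯ F z with hr
  have h5 : Algebra.trace k⟮x⟯ F (x * z) = xx * r := by
    rw [hr]
    exact trace_mul_left xx z
  have h6 : Ge q 1 (xx * r) := by
    rw [← h5]
    refine Pool.Agent.Y692.NT.trace_ge q _ fun w e hw => ?_
    have h1 := hw.2 xx
    have h2 : w.ord (algebraMap k⟮x⟯ F xx) = w.ord x := rfl
    have h3 := hw.1
    have h4 : (e : ℤ) * q.ord xx < 0 := mul_neg_of_pos_of_neg (by exact_mod_cast h3) hqx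
    have hwx : w.ord x < 0 := by omega
    have hvo := (ord_der w hD0 (f := x) (by omega)).2
    rw [hD, w.ord_one] at hvo
    have h7 : Ge w (w.ord x) x := Or.inr le_rfl
    refine (h7.mul (hz w hwx)).mono ?_
    omega
  by_cases hr0 : r = 0
  · rw [hr0, map_zero, HahnSeries.coeff_zero]
  obtain ⟨p, g, hg, hpg⟩ := exists_px_div r
  have hp : p ≠ 0 := by
    rintro rfl
    rw [map_zero, mul_eq_zero] at hpg
    rcases hpg with h | h
    · exact hr0 h
    · exact hg (px_injective hx (by rw [h, map_zero]))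
  have h7 := congrArg (iota hx) hpg
  rw [map_mul, iota_px, iota_px] at h7
  have h9 := congrArg HahnSeries.order h7
  rw [HahnSeries.order_mul (by rwa [Ne, map_eq_zero]) (eU_ne hg), order_eU hg, order_eU hp] at h9
  have h10 := congrArg (fun z : k⟮x⟯ => P0.ord (algebraMap k⟮x⟯ F z)) hpg
  simp only [map_mul] at h10
  have h11 : ∀ s : k[X], algebraMap k⟮x⟯ F (px x s) = aeval x s := coe_px
  rw [h11, h11, P0.ord_mul (by simpa using hr0) (ord_aeval_of_neg P0 hP0 hg).1,
    (ord_aeval_of_neg P0 hP0 hg).2, (ord_aeval_of_neg P0 hP0 hp).2] at h10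
  have hxx0 : xx ≠ 0 := by
    intro h
    exact hx0 (congrArg Subtype.val h)
  have h12 : P0.ord (algebraMap k⟮x⟯ F (xx * r)) = P0.ord x + P0.ord (algebraMap k⟮x⟯ F r) := by
    rw [map_mul, P0.ord_mul _ (by simpa using hr0)]
    · rfl
    · change x ≠ 0; exact hx0
  have h13 : 1 ≤ q.ord (xx * r) := h6.resolve_left (mul_ne_zero hxx0 hr0)
  have h14 : (0 : ℤ) < P0.ord (algebraMap k⟮x⟯ F (xx * r)) := by
    rw [hq.2]
    have := hq.1
    positivity
  have h15 : P0.ord (algebraMap k⟮x⟯ F r) = -(((g.natDegree : ℤ) - p.natDegree) * P0.ord x) := by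
    linarith
  have h16 : (2 : ℤ) ≤ (g.natDegree : ℤ) - p.natDegree := by
    by_contra hcon
    push Not at hcon
    have h17 : 1 * P0.ord x ≤ ((g.natDegree : ℤ) - p.natDegree) * P0.ord x := by
      apply mul_le_mul_of_nonpos_right (by omega) hP0.le
    omega
  apply HahnSeries.coeff_eq_zero_of_lt_order
  omega

/-- the main statement for a function with poles at the points -/
theorem exists_diff_x {x : F} (hx : Transcendental k x) (D : Derivation k F F) (hD : D x = 1)
    (n : Place k F → ℕ) (hn : ∀ P, n P ≠ 0 → P.ord x < 0) (P0 : Place k F) (hP0 : 1 ≤ n P0)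
    (hg : ∀ b : F, b ≠ 0 → (∀ P : Place k F, -(n P : ℤ) ≤ P.ord b) →
      P0.ord b ≠ -(n P0 : ℤ)) :
    ∃ f : F, f ≠ 0 ∧ (∀ P : Place k F, P ≠ P0 → vo P D + n P ≤ P.ord f) ∧
      P0.ord f = vo P0 D + n P0 - 1 := by
  classical
  obtain ⟨S, hS, -⟩ := poles (k := k) (K := F) hx
  have hP0x : P0.ord x < 0 := hn P0 (by omega)
  obtain ⟨π, hπ0, hπ⟩ := P0.surj
  -- the test function
  obtain ⟨u, hu1, hu2⟩ := approx_one (S.erase P0) P0 (by simp) (π ^ (-(n P0 : ℤ))) 0
  have hπn : π ^ (-(n P0 : ℤ)) ≠ 0 := zpow_ne_zero _ hπ0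
  have hord : P0.ord (π ^ (-(n P0 : ℤ))) = -(n P0 : ℤ) := by rw [P0.ord_zpow, hπ, mul_one]
  have hu : u ≠ 0 ∧ P0.ord u = -(n P0 : ℤ) := by
    by_cases h3 : u - π ^ (-(n P0 : ℤ)) = 0
    · rw [sub_eq_zero.1 h3]
      exact ⟨hπn, hord⟩
    · have h4 := hu1.resolve_left h3
      have h5 := P0.ord_add_eq (f := π ^ (-(n P0 : ℤ))) (g := u - π ^ (-(n P0 : ℤ))) hπn h3
        (by omega)
      rwa [add_sub_cancel, hord] at h5
  let m : Place k F → ℕ := fun P => if P = P0 then n P0 - 1 else n P
  let BE : Submodule k F :=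
    { carrier := {y | ∀ P : Place k F, P.ord x < 0 → Ge P (-(m P : ℤ)) y}
      add_mem' := fun ha hb P hP => (ha P hP).add (hb P hP)
      zero_mem' := fun P _ => Ge.zero
      smul_mem' := by
        intro c y hy P hP
        rw [Algebra.smul_def]
        simpa using (Ge.const (P := P) c).mul (hy P hP) }
  have hnot : u ∉ BB (k := k) x ⊔ BE := by
    intro hmem
    obtain ⟨b, hb, c, hc, hbc⟩ := Submodule.mem_sup.1 hmem
    have hbu : b = u - c := by rw [← hbc]; ring
    have hcP0 : Ge P0 (-(n P0 : ℤ) + 1) c := by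
      have := hc P0 hP0x
      simp only [m, if_true] at this
      refine this.mono ?_
      omega
    have hb0 : b ≠ 0 ∧ P0.ord b = -(n P0 : ℤ) := by
      rw [hbu]
      by_cases hc0 : c = 0
      · rw [hc0, sub_zero]
        exact hu
      · have h4 := hcP0.resolve_left hc0
        have h5 := P0.ord_add_eq (f := u) (g := -c) hu.1 (neg_ne_zero.2 hc0) (by
          rw [P0.ord_neg]
          omega)
        rw [← sub_eq_add_neg, hu.2] at h5
        exact h5
    refine hg b hb0.1 (fun P => ?_) hb0.2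
    rcases lt_or_ge (P.ord x) 0 with hPx | hPx
    · by_cases hPP : P = P0
      · rw [hPP]
        exact hb0.2.ge
      · have h6 : Ge P (-(n P : ℤ)) b := by
          rw [hbu]
          refine Ge.sub ?_ ?_
          · exact (hu2 P (Finset.mem_erase.2 ⟨hPP, (hS P).2 hPx⟩)).mono (by omega)
          · have := hc P hPx
            simp only [m, if_neg hPP] at this
            exact this
        exact h6.resolve_left hb0.1
    · have := (hb P hPx).resolve_left hb0.1
      omega
  obtain ⟨lam, hlamu, hle⟩ := Submodule.exists_le_ker_of_notMem hnot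
  have hB : ∀ y ∈ BB (k := k) x, lam y = 0 := fun y hy => hle (Submodule.mem_sup_left hy)
  have hI' : ∀ y : F, (∀ P : Place k F, P.ord x < 0 → Ge P (-(m P : ℤ)) y) → lam y = 0 :=
    fun y hy => hle (Submodule.mem_sup_right hy)
  have hI : ∀ y ∈ BI (k := k) x, lam y = 0 := fun y hy =>
    hI' y fun P hP => (hy P hP).mono (by omega)
  have hlam : lam ≠ 0 := by
    rintro rfl
    exact hlamu rfl
  obtain ⟨f, hf0, hf⟩ := exists_mult lam hI hx hB hlam
  have h1 : ∀ P : Place k F, vo P D + m P ≤ P.ord f := by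
    intro P
    rcases lt_or_ge (P.ord x) 0 with hPx | hPx
    · exact pole_vanish hx D hD lam m hI hI' hf0 hf P hPx
    · have h2 := mult_regular hx D hD lam hI hB hf0 hf P
      have h3 : m P = 0 := by
        by_cases hPP : P = P0
        · rw [hPP] at hPx
          omega
        · simp only [m, if_neg hPP]
          by_contra h0
          have := hn P h0
          omega
      rw [h3]
      simpa using h2
  refine ⟨f, hf0, fun P hP => ?_, ?_⟩
  · have := h1 P
    simp only [m, if_neg hP] at this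
    exact this
  · have h2 := h1 P0
    simp only [m, if_true] at h2
    by_contra hne
    apply hlamu
    have h3 : lam u = (SS lam hI u).coeff 1 := by
      rw [SS_coeff]
      simp
    rw [h3, ← hf u]
    refine coeff_trace hx D hD (fun P hPx => ?_) P0 hP0x
    by_cases hPP : P = P0
    · rw [hPP]
      right
      rw [P0.ord_mul hf0 hu.1, hu.2]
      omega
    · have h4 : Ge P (vo P D) f := Or.inr (by have := h1 P; omega)
      simpa using h4.mul (hu2 P (Finset.mem_erase.2 ⟨hPP, (hS P).2 hPx⟩))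

/-- **Regular differentials with prescribed vanishing orders.** If no function has poles bounded by
the divisor `n` and a pole of order exactly `n P0` at `P0`, there is a regular differential
vanishing on `n - P0` but not on `n`. -/
theorem exists_diff {D : Derivation k F F} (hD : D ≠ 0)
    (n : Place k F → ℕ) (T : Finset (Place k F)) (hn : ∀ P, n P ≠ 0 → P ∈ T) (P0 : Place k F)
    (hP0 : 1 ≤ n P0)
    (hg : ∀ b : F, b ≠ 0 → (∀ P : Place k F, -(n P : ℤ) ≤ P.ord b) →
      P0.ord b ≠ -(n P0 : ℤ)) :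
    ∃ f : F, f ≠ 0 ∧ (∀ P : Place k F, P ≠ P0 → vo P D + n P ≤ P.ord f) ∧
      P0.ord f = vo P0 D + n P0 - 1 := by
  classical
  obtain ⟨x, hx⟩ := Pool.Agent.W619.TW.exists_poles_at (k := k) T
  have hxt : Transcendental k x := P0.transcendental_of_ord_ne (by
    have := hx P0 (hn P0 (by omega))
    omega)
  have hDx := der_ne_zero hD hxt
  obtain ⟨f, hf0, hf1, hf2⟩ := exists_diff_x hxt ((D x)⁻¹ • D) (by simp [hDx]) n
    (fun P hP => hx P (hn P hP)) P0 hP0 hg
  refine ⟨f * D x, mul_ne_zero hf0 hDx, fun P hP => ?_, ?_⟩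
  · have h1 := hf1 P hP
    rw [vo_smul P hD (inv_ne_zero hDx), P.ord_inv] at h1
    rw [P.ord_mul hf0 hDx]
    omega
  · rw [vo_smul P0 hD (inv_ne_zero hDx), P0.ord_inv] at hf2
    rw [P0.ord_mul hf0 hDx, hf2]
    ring

/-- a bound for the degree from the poles -/
theorem finrank_le {b : F} (hb : Transcendental k b) (n : Place k F → ℕ)
    (T : Finset (Place k F)) (hn : ∀ P, n P ≠ 0 → P ∈ T)
    (h : ∀ P : Place k F, -(n P : ℤ) ≤ P.ord b) :
    Module.finrank k⟮b⟯ F ≤ ∑ P ∈ T, n P := by
  classical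
  obtain ⟨S, hS, hS2⟩ := poles (k := k) (K := F) hb
  have h1 : ((Module.finrank k⟮b⟯ F : ℕ) : ℤ) ≤ ((∑ P ∈ T, n P : ℕ) : ℤ) := by
    rw [← hS2]
    push_cast
    have h2 : ∀ P ∈ S, (((-P.ord b).toNat : ℕ) : ℤ) * (P.deg : ℤ) ≤ n P := by
      intro P _
      rw [deg_one]
      have := h P
      push_cast
      omega
    refine (Finset.sum_le_sum h2).trans ?_
    have h3 : S ⊆ T := by
      intro P hP
      apply hn
      have h4 := (hS P).1 hP
      have h5 := h P
      omega
    exact Finset.sum_le_sum_of_subset_of_nonneg h3 fun _ _ _ => by positivity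
  exact_mod_cast h1

/-- the version with the gonality -/
theorem exists_diff_gon {D : Derivation k F F} (hD : D ≠ 0)
    (n : Place k F → ℕ) (T : Finset (Place k F)) (hn : ∀ P, n P ≠ 0 → P ∈ T)
    (hγ : ∀ b : F, Transcendental k b → ∑ P ∈ T, n P < Module.finrank k⟮b⟯ F)
    (P0 : Place k F) (hP0 : 1 ≤ n P0) :
    ∃ f : F, f ≠ 0 ∧ (∀ P : Place k F, P ≠ P0 → vo P D + n P ≤ P.ord f) ∧
      P0.ord f = vo P0 D + n P0 - 1 := by
  refine exists_diff hD n T hn P0 hP0 fun b hb h1 h2 => ?_
  have hbt : Transcendental k b := P0.transcendental_of_ord_ne (by omega)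
  have h3 := finrank_le hbt n T hn h1
  have h4 := hγ b hbt
  omega

end

end Q36.SD
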