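import Pool.Agent.Q36.SD.In

/-!
Elimination: relations between products of embeddings of function fields of curves.
-/

set_option autoImplicit false
set_option linter.overlappingInstances false
set_option linter.unusedSectionVars false

open Polynomial FF IsDedekindDomain IntermediateField
open Pool.Agent.W603.LV Pool.Agent.W619.PQ

namespace Q36.SD

section

variable {k F Ω : Type} [Field k] [Field F] [Algebra k F] [CharZero k] [IsFF k F] [IsAlgClosed k]
  [Field Ω] [Algebra k Ω]

/-- a combination of regular differentials which is `1` at `φ0` and `0` at `B` -/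
theorem kill {D : Derivation k F F} (hD : D ≠ 0) (φ0 : F →ₐ[k] Ω) (B : Finset (F →ₐ[k] Ω))
    (hB : φ0 ∉ B)
    (hγ : ∀ b : F, Transcendental k b → B.card + 1 < Module.finrank k⟮b⟯ F) :
    ∃ (m : ℕ) (a : Fin m → Ω) (g : Fin m → F), (∀ l, RegDiff D (g l)) ∧
      ∑ l, a l * φ0 (g l) = 1 ∧ ∀ φ ∈ B, ∑ l, a l * φ (g l) = 0 := by
  classical
  obtain ⟨m, g, hg1, hg2⟩ := exists_basis hD
  let ι := {φ : F →ₐ[k] Ω // φ ∈ insert φ0 B}
  have hcard : Fintype.card ι = B.card + 1 := by
    rw [Fintype.card_coe, Finset.card_insert_of_notMem hB]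
  let T : (Fin m → Ω) →ₗ[Ω] (ι → Ω) :=
    { toFun := fun a j => ∑ l, a l * (j : F →ₐ[k] Ω) (g l)
      map_add' := by
        intro a b
        ext j
        simp only [Pi.add_apply, add_mul, Finset.sum_add_distrib]
      map_smul' := by
        intro c a
        ext j
        simp only [Pi.smul_apply, smul_eq_mul, RingHom.id_apply, Finset.mul_sum, mul_assoc] }
  have hT : LinearMap.range T = ⊤ := by
    by_contra hne
    obtain ⟨f, hf0, hf⟩ := Submodule.exists_le_ker_of_lt_top _ (lt_top_iff_ne_top.2 hne)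
    apply hf0
    have hfe : ∀ v : ι → Ω, f v = ∑ j, v j * f (Pi.single j 1) := by
      intro v
      conv_lhs => rw [← Finset.univ_sum_single v]
      rw [map_sum]
      refine Finset.sum_congr rfl fun j _ => ?_
      have : (Pi.single j (v j) : ι → Ω) = v j • Pi.single j 1 := by
        rw [← Pi.single_smul, smul_eq_mul, mul_one]
      rw [this, map_smul, smul_eq_mul]
    have h1 : ∀ y : F, RegDiff D y → ∑ j : ι, f (Pi.single j 1) * (j : F →ₐ[k] Ω) y = 0 := by
      intro y hy
      obtain ⟨a, rfl⟩ := hg2 y hy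
      have h2 : f (T fun l => algebraMap k Ω (a l)) = 0 := by
        have := hf (LinearMap.mem_range_self T fun l => algebraMap k Ω (a l))
        exact this
      rw [hfe] at h2
      rw [← h2]
      refine Finset.sum_congr rfl fun j _ => ?_
      rw [mul_comm]
      congr 1
      change _ = ∑ l, algebraMap k Ω (a l) * (j : F →ₐ[k] Ω) (g l)
      rw [map_sum]
      refine Finset.sum_congr rfl fun l _ => ?_
      rw [map_smul, Algebra.smul_def]
    have h2 := indep hD (fun j : ι => (j : F →ₐ[k] Ω)) Subtype.val_injective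
      (by rw [hcard]; exact hγ) (fun j => f (Pi.single j 1)) h1
    ext j
    simp only [LinearMap.coe_comp, LinearMap.coe_single, Function.comp_apply, LinearMap.zero_comp,
      LinearMap.zero_apply]
    exact h2 j
  obtain ⟨a, ha⟩ := LinearMap.range_eq_top.1 hT (Pi.single ⟨φ0, Finset.mem_insert_self _ _⟩ 1)
  refine ⟨m, a, g, hg1, ?_, fun φ hφ => ?_⟩
  · have h1 := congrFun ha ⟨φ0, Finset.mem_insert_self _ _⟩
    rw [Pi.single_eq_same] at h1
    exact h1
  · have h1 := congrFun ha ⟨φ, Finset.mem_insert_of_mem hφ⟩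
    rw [Pi.single_eq_of_ne] at h1
    · exact h1
    · intro h
      have h2 := congrArg Subtype.val h
      change φ = φ0 at h2
      rw [h2] at hφ
      exact hB hφ

end

section

variable {k Ω : Type} [Field k] [CharZero k] [IsAlgClosed k] [Field Ω] [Algebra k Ω] {n : ℕ}
  {F : Fin n → Type} [∀ i, Field (F i)] [∀ i, Algebra k (F i)] [∀ i, IsFF k (F i)]

/-- **Elimination.** -/
theorem elim {D0 : ∀ i, Derivation k (F i) (F i)} (hD0 : ∀ i, D0 i ≠ 0) {Λ : Type} [Fintype Λ]
    (p : ∀ i, Λ → (F i →ₐ[k] Ω)) (c : Λ → Ω)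
    (h : ∀ f : ∀ i, F i, (∀ i, RegDiff (D0 i) (f i)) → ∑ σ, c σ * ∏ i, p i σ (f i) = 0)
    (σ0 : Λ) (B : ∀ i, Finset (F i →ₐ[k] Ω)) (hB : ∀ i, p i σ0 ∉ B i)
    (hγ : ∀ i, ∀ b : F i, Transcendental k b → (B i).card + 1 < Module.finrank k⟮b⟯ (F i))
    (hkill : ∀ σ, σ ≠ σ0 → ∃ i, p i σ ∈ B i) : c σ0 = 0 := by
  classical
  choose m a g hg h1 h0 using fun i => kill (hD0 i) (p i σ0) (B i) (hB i) (hγ i)
  have key : ∑ σ, c σ * ∏ i, ∑ l, a i l * p i σ (g i l) = 0 := by
    have e1 : ∀ σ, c σ * ∏ i, ∑ l, a i l * p i σ (g i l) =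
        ∑ q ∈ Fintype.piFinset fun i => (Finset.univ : Finset (Fin (m i))),
          (∏ i, a i (q i)) * (c σ * ∏ i, p i σ (g i (q i))) := by
      intro σ
      rw [Finset.prod_univ_sum, Finset.mul_sum]
      refine Finset.sum_congr rfl fun q _ => ?_
      rw [Finset.prod_mul_distrib]
      ring
    rw [Finset.sum_congr rfl fun σ _ => e1 σ, Finset.sum_comm]
    refine Finset.sum_eq_zero fun q _ => ?_
    rw [← Finset.mul_sum, h (fun i => g i (q i)) (fun i => hg i _), mul_zero]
  rw [Finset.sum_eq_single σ0] at key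
  · have h2 : ∏ i, ∑ l, a i l * p i σ0 (g i l) = 1 := Finset.prod_eq_one fun i _ => h1 i
    rwa [h2, mul_one] at key
  · intro σ _ hσ
    obtain ⟨i, hi⟩ := hkill σ hσ
    rw [Finset.prod_eq_zero (Finset.mem_univ i) (h0 i _ hi), mul_zero]
  · intro h
    exact absurd (Finset.mem_univ σ0) h

end

section

variable {L M Ω : Type} [Field L] [Field M] [Algebra L M] [FiniteDimensional L M] [Field Ω]
  [Algebra L Ω]

/-- the number of the embeddings with a given restriction to a set which is not in `L` -/
theorem card_restrict (T : Set M) (hT : ∃ z ∈ T, z ∉ Set.range (algebraMap L M))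
    (S : Finset (M →ₐ[L] Ω)) (σ0 : M →ₐ[L] Ω) (hS : ∀ σ ∈ S, ∀ z ∈ T, σ z = σ0 z) :
    2 * S.card ≤ Module.finrank L M := by
  classical
  let L1 : IntermediateField L M := IntermediateField.adjoin L T
  have hL1 : L1 ≠ ⊥ := by
    intro h
    obtain ⟨z, hz, hz2⟩ := hT
    apply hz2
    have h1 : z ∈ L1 := IntermediateField.subset_adjoin L T hz
    rw [h, IntermediateField.mem_bot] at h1
    exact h1
  have h2 : 2 ≤ Module.finrank L L1 := by
    have h3 : Module.finrank L L1 ≠ 1 := fun h => hL1 (IntermediateField.finrank_eq_one_iff.1 h)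
    have h4 : 0 < Module.finrank L L1 := Module.finrank_pos
    omega
  have h3 : Module.finrank L L1 * Module.finrank L1 M = Module.finrank L M :=
    Module.finrank_mul_finrank L L1 M
  have hext : ∀ σ ∈ S, ∀ z ∈ L1, σ z = σ0 z := by
    intro σ hσ z hz
    induction hz using IntermediateField.adjoin_induction with
    | mem z hz => exact hS σ hσ z hz
    | algebraMap z => rw [σ.commutes, σ0.commutes]
    | add a b _ _ ha hb => rw [map_add, map_add, ha, hb]
    | inv a _ ha => rw [map_inv₀, map_inv₀, ha]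
    | mul a b _ _ ha hb => rw [map_mul, map_mul, ha, hb]
  let _ : Algebra L1 Ω := ((σ0.comp L1.val : L1 →ₐ[L] Ω) : L1 →+* Ω).toAlgebra
  let Φ : S → (M →ₐ[L1] Ω) := fun σ =>
    { toFun := σ.1
      map_one' := map_one _
      map_mul' := map_mul _
      map_zero' := map_zero _
      map_add' := map_add _
      commutes' := fun z => hext σ.1 σ.2 z z.2 }
  have hΦ : Function.Injective Φ := by
    intro σ τ h
    apply Subtype.ext
    ext z
    exact congrArg (fun f : M →ₐ[L1] Ω => f z) h
  have h4 : Fintype.card S ≤ Module.finrank L1 M := by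
    have h5 := Fintype.card_le_of_injective Φ hΦ
    have h6 := card_algHom_le_finrank L1 M Ω
    rw [Nat.card_eq_fintype_card] at h6
    exact h5.trans h6
  rw [Fintype.card_coe] at h4
  calc 2 * S.card ≤ Module.finrank L L1 * Module.finrank L1 M := Nat.mul_le_mul h2 h4
    _ = _ := h3

end

/-- distributing the remaining points -/
theorem distribute {Λ : Type} [Fintype Λ] [DecidableEq Λ] (σ0 : Λ) (A B : Finset Λ) (g : ℕ)
    (hAB : Disjoint A B) (hA0 : σ0 ∉ A) (hB0 : σ0 ∉ B) (hA : A.card ≤ g) (hB : B.card ≤ g)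
    (hg : Fintype.card Λ ≤ 2 * g + 1) :
    ∃ X Y : Finset Λ, A ⊆ X ∧ B ⊆ Y ∧ Disjoint A Y ∧ Disjoint B X ∧ X.card ≤ g ∧ Y.card ≤ g ∧
      σ0 ∉ X ∧ σ0 ∉ Y ∧ ∀ σ, σ ≠ σ0 → σ ∈ X ∨ σ ∈ Y := by
  classical
  let R : Finset Λ := (Finset.univ.erase σ0) \ (A ∪ B)
  have hR0 : σ0 ∉ R := by simp [R]
  have hRA : Disjoint A R := by
    rw [Finset.disjoint_left]
    intro z hz hzR
    exact (Finset.mem_sdiff.1 hzR).2 (Finset.mem_union_left _ hz)
  have hRB : Disjoint B R := by
    rw [Finset.disjoint_left]
    intro z hz hzR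
    exact (Finset.mem_sdiff.1 hzR).2 (Finset.mem_union_right _ hz)
  have hcard : A.card + B.card + R.card + 1 = Fintype.card Λ := by
    have h1 : (A ∪ B) ⊆ Finset.univ.erase σ0 := by
      intro z hz
      rw [Finset.mem_erase]
      refine ⟨?_, Finset.mem_univ z⟩
      rintro rfl
      rcases Finset.mem_union.1 hz with h | h
      · exact hA0 h
      · exact hB0 h
    have h2 := Finset.card_sdiff_add_card_eq_card h1
    rw [Finset.card_erase_of_mem (Finset.mem_univ σ0), Finset.card_univ,
      Finset.card_union_of_disjoint hAB] at h2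
    have h3 : 0 < Fintype.card Λ := Fintype.card_pos_iff.2 ⟨σ0⟩
    change R.card + _ = _ at h2
    omega
  obtain ⟨C, hC, hCcard⟩ := Finset.exists_subset_card_eq
    (show min R.card (g - A.card) ≤ R.card from min_le_left _ _)
  refine ⟨A ∪ C, B ∪ (R \ C), Finset.subset_union_left, Finset.subset_union_left, ?_, ?_, ?_, ?_,
    ?_, ?_, ?_⟩
  · rw [Finset.disjoint_union_right]
    exact ⟨hAB, hRA.mono_right Finset.sdiff_subset⟩
  · rw [Finset.disjoint_union_right]
    exact ⟨hAB.symm, hRB.mono_right hC⟩
  · rw [Finset.card_union_of_disjoint (hRA.mono_right hC), hCcard]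
    omega
  · rw [Finset.card_union_of_disjoint (hRB.mono_right Finset.sdiff_subset)]
    have h1 := Finset.card_sdiff_add_card_eq_card hC
    omega
  · intro h
    rcases Finset.mem_union.1 h with h | h
    · exact hA0 h
    · exact hR0 (hC h)
  · intro h
    rcases Finset.mem_union.1 h with h | h
    · exact hB0 h
    · exact hR0 (Finset.sdiff_subset h)
  · intro σ hσ
    by_cases hσA : σ ∈ A
    · exact Or.inl (Finset.mem_union_left _ hσA)
    by_cases hσB : σ ∈ B
    · exact Or.inr (Finset.mem_union_left _ hσB)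
    have hσR : σ ∈ R := by
      rw [Finset.mem_sdiff]
      refine ⟨Finset.mem_erase.2 ⟨hσ, Finset.mem_univ σ⟩, ?_⟩
      intro h
      rcases Finset.mem_union.1 h with h | h
      · exact hσA h
      · exact hσB h
    by_cases hσC : σ ∈ C
    · exact Or.inl (Finset.mem_union_right _ hσC)
    · exact Or.inr (Finset.mem_union_right _ (Finset.mem_sdiff.2 ⟨hσR, hσC⟩))

section

variable {k L M : Type} [Field k] [CharZero k] [IsAlgClosed k] [Field L] [Field M]
  [Algebra k L] [Algebra k M] [Algebra L M] [IsScalarTower k L M] [FiniteDimensional L M]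
  {n : ℕ} (F : Fin n → IntermediateField k M) [hF : ∀ i, IsFF k (F i)]

/-- the embeddings are determined by their restrictions to the factors -/
theorem emb_ext {Ω : Type} [Field Ω] [Algebra L Ω] (hsup : ⨆ i, F i = ⊤) (σ τ : M →ₐ[L] Ω)
    (h : ∀ i, ∀ z ∈ F i, σ z = τ z) : σ = τ := by
  have h1 : ∀ z ∈ (⨆ i, F i : IntermediateField k M), σ z = τ z := by
    intro z hz
    let EQ : IntermediateField k M :=
      { carrier := {z | σ z = τ z}
        mul_mem' := by
          intro a b ha hb
          simp only [Set.mem_ofPred_eq] at *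
          rw [map_mul, map_mul, ha, hb]
        add_mem' := by
          intro a b ha hb
          simp only [Set.mem_ofPred_eq] at *
          rw [map_add, map_add, ha, hb]
        algebraMap_mem' := by
          intro r
          simp only [Set.mem_ofPred_eq]
          rw [IsScalarTower.algebraMap_apply k L M, σ.commutes, τ.commutes]
        inv_mem' := by
          intro a ha
          simp only [Set.mem_ofPred_eq] at *
          rw [map_inv₀, map_inv₀, ha] }
    have h2 : (⨆ i, F i) ≤ EQ := iSup_le fun i y hy => h i y hy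
    exact h2 hz
  ext z
  exact h1 z (by rw [hsup]; trivial)

/-- **Degree smaller than the gonality.** -/
theorem elim_small (hsup : ⨆ i, F i = ⊤) {D0 : ∀ i, Derivation k (F i) (F i)}
    (hD0 : ∀ i, D0 i ≠ 0) (J : M)
    (hrel : ∀ f : ∀ i, F i, (∀ i, RegDiff (D0 i) (f i)) →
      Algebra.trace L M (J * ∏ i, (f i : M)) = 0)
    (hγ : ∀ i, ∀ b : F i, Transcendental k b →
      Module.finrank L M < Module.finrank k⟮b⟯ (F i)) : J = 0 := by
  classical
  have hchar : CharZero L := charZero_of_injective_algebraMap (algebraMap k L).injective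
  have hsep : Algebra.IsSeparable L M := inferInstance
  let Ω := AlgebraicClosure M
  let Λ := M →ₐ[L] Ω
  let _ : Fintype Λ := (inferInstance : Fintype (M →ₐ[L] Ω))
  have hΛ : Fintype.card Λ = Module.finrank L M := AlgHom.card L M Ω
  have hpos : 0 < Module.finrank L M := Module.finrank_pos
  obtain ⟨σ0⟩ : Nonempty Λ := Fintype.card_pos_iff.1 (by rw [hΛ]; exact hpos)
  let p : ∀ i, Λ → (F i →ₐ[k] Ω) := fun i σ => (σ.restrictScalars k).comp (F i).val
  have hfin := elim (Ω := Ω) hD0 p (fun σ => σ J) (fun f hf => by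
    have h1 := hrel f hf
    have h2 := trace_eq_sum_embeddings (K := L) (L := M) (x := J * ∏ i, (f i : M)) Ω
    rw [h1, map_zero] at h2
    rw [h2]
    refine Finset.sum_congr rfl fun σ _ => ?_
    rw [map_mul, map_prod]
    rfl) σ0 (fun i => (Finset.univ.image (p i)).erase (p i σ0)) (fun i => Finset.notMem_erase _ _)
    (fun i b hb => by
      have h1 := hγ i b hb
      have h2 : ((Finset.univ.image (p i)).erase (p i σ0)).card + 1 =
          (Finset.univ.image (p i)).card :=
        Finset.card_erase_add_one (Finset.mem_image_of_mem _ (Finset.mem_univ σ0))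
      have h3 : (Finset.univ.image (p i)).card ≤ Fintype.card Λ := Finset.card_image_le
      omega) (fun σ hσ => by
      by_contra hcon
      push Not at hcon
      apply hσ
      refine emb_ext F hsup σ σ0 fun i z hz => ?_
      have h1 : p i σ = p i σ0 := by
        by_contra hne
        exact hcon i (Finset.mem_erase.2 ⟨hne, Finset.mem_image_of_mem _ (Finset.mem_univ σ)⟩)
      exact congrArg (fun φ : F i →ₐ[k] Ω => φ ⟨z, hz⟩) h1)
  exact (map_eq_zero σ0).1 hfin

/-- **Dichotomy.** For each index `i` the field `F i` or all the other fields are in `L`. -/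
theorem dichotomy (hsup : ⨆ i, F i = ⊤) (D0 : ∀ i, Derivation k (F i) (F i))
    (hD0 : ∀ i, D0 i ≠ 0) (J : M) (hJ : J ≠ 0)
    (hrel : ∀ f : ∀ i, F i, (∀ i, RegDiff (D0 i) (f i)) →
      Algebra.trace L M (J * ∏ i, (f i : M)) = 0)
    (hγ : ∀ i, ∀ b : F i, Transcendental k b →
      Module.finrank L M + 3 ≤ 2 * Module.finrank k⟮b⟯ (F i)) (i0 : Fin n) :
    (∀ z ∈ F i0, z ∈ Set.range (algebraMap L M)) ∨
      ∀ j, j ≠ i0 → ∀ z ∈ F j, z ∈ Set.range (algebraMap L M) := by
  classical
  by_contra hcon
  push Not at hcon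
  obtain ⟨⟨z1, hz1, hz1'⟩, j1, hj1, z2, hz2, hz2'⟩ := hcon
  have hchar : CharZero L := charZero_of_injective_algebraMap (algebraMap k L).injective
  have hsep : Algebra.IsSeparable L M := inferInstance
  let Ω := AlgebraicClosure M
  let Λ := M →ₐ[L] Ω
  let _ : Fintype Λ := (inferInstance : Fintype (M →ₐ[L] Ω))
  have hΛ : Fintype.card Λ = Module.finrank L M := AlgHom.card L M Ω
  have hpos : 0 < Module.finrank L M := Module.finrank_pos
  obtain ⟨σ0⟩ : Nonempty Λ := Fintype.card_pos_iff.1 (by rw [hΛ]; exact hpos)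
  let p : ∀ i, Λ → (F i →ₐ[k] Ω) := fun i σ => (σ.restrictScalars k).comp (F i).val
  have hp : ∀ i σ (z : F i), p i σ z = σ (z : M) := fun i σ z => rfl
  -- the embeddings are determined by their restrictions
  have hdet : ∀ σ τ : Λ, (∀ i, p i σ = p i τ) → σ = τ := by
    intro σ τ h
    have h1 : ∀ z ∈ (⨆ i, F i : IntermediateField k M), σ z = τ z := by
      intro z hz
      let EQ : IntermediateField k M :=
        { carrier := {z | σ z = τ z}
          mul_mem' := by
            intro a b ha hb
            simp only [Set.mem_ofPred_eq] at *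
            rw [map_mul, map_mul, ha, hb]
          add_mem' := by
            intro a b ha hb
            simp only [Set.mem_ofPred_eq] at *
            rw [map_add, map_add, ha, hb]
          algebraMap_mem' := by
            intro r
            simp only [Set.mem_ofPred_eq]
            rw [IsScalarTower.algebraMap_apply k L M, σ.commutes, τ.commutes]
          inv_mem' := by
            intro a ha
            simp only [Set.mem_ofPred_eq] at *
            rw [map_inv₀, map_inv₀, ha] }
      have h2 : (⨆ i, F i) ≤ EQ := by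
        refine iSup_le fun i => ?_
        intro y hy
        change σ y = τ y
        have := congrArg (fun φ : F i →ₐ[k] Ω => φ ⟨y, hy⟩) (h i)
        exact this
      exact h2 hz
    ext z
    exact h1 z (by rw [hsup]; trivial)
  set g := Module.finrank L M / 2 with hg
  let A : Finset Λ := Finset.univ.filter fun σ => σ ≠ σ0 ∧ p i0 σ = p i0 σ0
  let B : Finset Λ := Finset.univ.filter fun σ => σ ≠ σ0 ∧ ∀ j, j ≠ i0 → p j σ = p j σ0
  have hA0 : σ0 ∉ A := by simp [A]
  have hB0 : σ0 ∉ B := by simp [B]
  have hAB : Disjoint A B := by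
    rw [Finset.disjoint_left]
    intro σ hσA hσB
    obtain ⟨-, h1, h2⟩ := Finset.mem_filter.1 hσA
    obtain ⟨-, -, h3⟩ := Finset.mem_filter.1 hσB
    apply h1
    refine hdet σ σ0 fun i => ?_
    by_cases hi : i = i0
    · rw [hi]
      exact h2
    · exact h3 i hi
  have hAc : A.card ≤ g := by
    have h1 := card_restrict (L := L) (Ω := Ω) (F i0 : Set M) ⟨z1, hz1, hz1'⟩ (insert σ0 A) σ0
      (by
        intro σ hσ z hz
        rcases Finset.mem_insert.1 hσ with rfl | hσ
        · rfl
        · obtain ⟨-, -, h2⟩ := Finset.mem_filter.1 hσ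
          exact congrArg (fun φ : F i0 →ₐ[k] Ω => φ ⟨z, hz⟩) h2)
    rw [Finset.card_insert_of_notMem hA0] at h1
    omega
  have hBc : B.card ≤ g := by
    have h1 := card_restrict (L := L) (Ω := Ω) (F j1 : Set M) ⟨z2, hz2, hz2'⟩ (insert σ0 B) σ0
      (by
        intro σ hσ z hz
        rcases Finset.mem_insert.1 hσ with rfl | hσ
        · rfl
        · obtain ⟨-, -, h2⟩ := Finset.mem_filter.1 hσ
          exact congrArg (fun φ : F j1 →ₐ[k] Ω => φ ⟨z, hz⟩) (h2 j1 hj1))
    rw [Finset.card_insert_of_notMem hB0] at h1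
    omega
  obtain ⟨X, Y, hAX, hBY, hAY, hBX, hXc, hYc, hX0, hY0, hXY⟩ := distribute σ0 A B g hAB hA0 hB0
    hAc hBc (by rw [hΛ]; omega)
  -- the values which are killed
  let K : ∀ i, Finset (F i →ₐ[k] Ω) := fun i =>
    if i = i0 then Y.image (p i) else (X.image (p i)).erase (p i σ0)
  have hK0 : ∀ i, p i σ0 ∉ K i := by
    intro i
    by_cases hi : i = i0
    · simp only [K, if_pos hi]
      intro h
      obtain ⟨σ, hσ, h1⟩ := Finset.mem_image.1 h
      subst hi
      have h2 : σ ≠ σ0 := by
        rintro rfl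
        exact hY0 hσ
      exact (Finset.disjoint_left.1 hAY) (Finset.mem_filter.2 ⟨Finset.mem_univ σ, h2, h1⟩) hσ
    · simp only [K, if_neg hi]
      exact Finset.notMem_erase _ _
  have hKc : ∀ i, (K i).card ≤ g := by
    intro i
    by_cases hi : i = i0
    · simp only [K, if_pos hi]
      exact Finset.card_image_le.trans hYc
    · simp only [K, if_neg hi]
      exact (Finset.card_erase_le.trans Finset.card_image_le).trans hXc
  have hfin := elim (Ω := Ω) hD0 p (fun σ => σ J) (fun f hf => by
    have h1 := hrel f hf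
    have h2 := trace_eq_sum_embeddings (K := L) (L := M) (x := J * ∏ i, (f i : M)) Ω
    rw [h1, map_zero] at h2
    rw [h2]
    refine Finset.sum_congr rfl fun σ _ => ?_
    rw [map_mul, map_prod]
    rfl) σ0 K hK0 (fun i b hb => by
      have h1 := hγ i b hb
      have h2 := hKc i
      omega) (fun σ hσ => by
      rcases hXY σ hσ with h1 | h1
      · -- in `X`
        have h2 : σ ∉ B := fun h => Finset.disjoint_left.1 hBX h h1
        have h3 : ∃ j, j ≠ i0 ∧ p j σ ≠ p j σ0 := by
          by_contra hcon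
          push Not at hcon
          exact h2 (Finset.mem_filter.2 ⟨Finset.mem_univ σ, hσ, hcon⟩)
        obtain ⟨j, hj, hj2⟩ := h3
        refine ⟨j, ?_⟩
        simp only [K, if_neg hj]
        exact Finset.mem_erase.2 ⟨hj2, Finset.mem_image_of_mem _ h1⟩
      · refine ⟨i0, ?_⟩
        simp only [K, if_true]
        exact Finset.mem_image_of_mem _ h1)
  exact hJ ((map_eq_zero σ0).1 hfin)

end

end Q36.SD
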