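import Pool.Agent.Q36.SD.In
import Pool.Agent.W619.TW.Tens

/-!
The exterior products of regular differentials on the curves are regular canonical forms; their
traces.
-/

set_option autoImplicit false
set_option linter.overlappingInstances false
set_option linter.unusedSectionVars false

open Polynomial FF IsDedekindDomain IntermediateField
open Pool.Agent.W602.GT Pool.Agent.W603.LV Pool.Agent.W619.PQ Pool.Agent.W619.TW

namespace Q36.SD

section

variable {k M : Type} [Field k] [CharZero k] [IsAlgClosed k] [Field M] [Algebra k M]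
  {n : ℕ} (F : Fin n → IntermediateField k M) [hF : ∀ i, IsFF k (F i)]

/-- the exterior product of the differentials `f i` -/
noncomputable def wedge (D0 : ∀ i, Derivation k (F i) (F i)) (t f : ∀ i, F i)
    (D : Fin n → Derivation k M M) : M :=
  (∏ i, ((f i : M) / (D0 i (t i) : M))) * (Matrix.of fun a b => D a (t b : M)).det

theorem wedge_pluri (D0 : ∀ i, Derivation k (F i) (F i)) (t f : ∀ i, F i) :
    IsPluri 1 (wedge F D0 t f) := by
  intro A D
  unfold wedge
  have e1 : (Matrix.of fun a b => (∑ j, A a j • D j) (t b : M)) =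
      A * Matrix.of fun a b => D a (t b : M) := by
    ext a b
    rw [Matrix.of_apply, Matrix.mul_apply, Pool.Agent.Y172.sum_smul_apply]
    rfl
  rw [e1, Matrix.det_mul, pow_one]
  ring

theorem wedge_tens (D0 : ∀ i, Derivation k (F i) (F i)) (t f : ∀ i, F i)
    (D : Fin n → Derivation k M M) :
    wedge F D0 t f D = tensForm 1 D0 t f (fun _ : Fin 1 => D) := by
  unfold wedge tensForm
  rw [Finset.prod_const, Finset.card_univ, Fintype.card_fin, pow_one]
  congr 1
  refine Finset.prod_congr rfl fun i _ => ?_
  rw [pow_one, map_div₀]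
  rfl

theorem wedge_reg {D0 : ∀ i, Derivation k (F i) (F i)} (hD0 : ∀ i, D0 i ≠ 0) {t f : ∀ i, F i}
    (ht : ∀ i, Transcendental k (t i)) (hf : ∀ i, RegDiff (D0 i) (f i)) (v : Place k M) :
    RegAt v (wedge F D0 t f) := by
  classical
  intro D hD
  by_cases hf0 : ∃ i, f i = 0
  · obtain ⟨i, hi⟩ := hf0
    left
    unfold wedge
    rw [Finset.prod_eq_zero (Finset.mem_univ i), zero_mul]
    rw [hi]
    change (0 : M) / _ = 0
    rw [zero_div]
  push Not at hf0
  rw [wedge_tens]
  refine tensForm_regular 1 D0 hD0 t f ht hf0 v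
    (fun i => if ∀ f : F i, v.ord (algebraMap (F i) M f) = 0 then 0 else 1) (fun i => ?_) ?_
    (fun _ => D) (fun _ j => hD j)
  · by_cases h : ∀ f : F i, v.ord (algebraMap (F i) M f) = 0
    · left
      exact ⟨h, if_pos h⟩
    · right
      push Not at h
      obtain ⟨e, q, hq⟩ := exists_over (K := F i) v h
      refine ⟨q, e, hq, ?_⟩
      rw [if_neg (by push Not; exact h)]
      have h1 := (hf i q).resolve_left (hf0 i)
      have h2 : (1 : ℚ) ≤ e := by exact_mod_cast hq.1
      have h3 : (1 : ℚ) ≤ (q.ord (f i) : ℚ) + (1 : ℕ) * (1 - vo q (D0 i)) := by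
        have : ((vo q (D0 i) : ℤ) : ℚ) ≤ (q.ord (f i) : ℚ) := by exact_mod_cast h1
        push_cast
        linarith
      push_cast
      push_cast at h3
      nlinarith
  · by_cases h : ∀ i, ∀ f : F i, v.ord (algebraMap (F i) M f) = 0
    · exact Or.inl h
    · right
      push Not at h
      obtain ⟨i, hi⟩ := h
      have h1 : (∑ j, if ∀ f : F j, v.ord (algebraMap (F j) M f) = 0 then (0 : ℚ) else 1) ≥
          if ∀ f : F i, v.ord (algebraMap (F i) M f) = 0 then (0 : ℚ) else 1 :=
        Finset.single_le_sum (f := fun j => if ∀ f : F j, v.ord (algebraMap (F j) M f) = 0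
          then (0 : ℚ) else 1) (fun j _ => by positivity) (Finset.mem_univ i)
      rw [if_neg (by push Not; exact hi)] at h1
      exact h1

end

section

variable {k L M : Type} [Field k] [CharZero k] [IsAlgClosed k] [Field L] [Field M]
  [Algebra k L] [Algebra k M] [Algebra L M] [IsScalarTower k L M] [FiniteDimensional L M]
  [Algebra.EssFiniteType k L] [Algebra.EssFiniteType k M]
  {n : ℕ} (F : Fin n → IntermediateField k M) [hF : ∀ i, IsFF k (F i)]

variable (k L n) in
/-- The geometric genus is zero: the only canonical form which is regular at all prime divisors is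
`0`. -/
def PgZero : Prop :=
  ∀ ω : (Fin n → Derivation k L L) → L, IsPluri 1 ω →
    (∀ P : Place k L, Divisorial n P → RegAt P ω) → ∀ D, ω D = 0

/-- **The traces of the products of regular differentials vanish.** -/
theorem trace_rel (hn : Algebra.trdeg k L = n) (hpg : PgZero k L n)
    {D0 : ∀ i, Derivation k (F i) (F i)} (hD0 : ∀ i, D0 i ≠ 0) {t f : ∀ i, F i}
    (ht : ∀ i, Transcendental k (t i)) (hf : ∀ i, RegDiff (D0 i) (f i))
    (E : Fin n → Derivation k L L) (E' : Fin n → Derivation k M M)
    (hE' : ∀ i f, E' i (algebraMap L M f) = algebraMap L M (E i f)) :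
    Algebra.trace L M (wedge F D0 t f E') = 0 :=
  Pool.Agent.Y692.NT.trace_form hn hpg (wedge F D0 t f) (wedge_pluri F D0 t f)
    (fun Q _ => wedge_reg F hD0 ht hf Q) E E' hE'

end

end Q36.SD
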