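import Pool.Agent.Q36.SD.Sp

/-!
Finitely many embeddings of the function field of a curve impose independent conditions on the
regular differentials and their derivatives.
-/

set_option autoImplicit false
set_option linter.overlappingInstances false
set_option linter.unusedSectionVars false

open Polynomial FF IsDedekindDomain IntermediateField
open Pool.Agent.W603.LV Pool.Agent.W619.PQ

namespace Q36.SD

section

variable {k F : Type} [Field k] [Field F] [Algebra k F] [CharZero k] [IsFF k F] [IsAlgClosed k]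

/-- the value of the regular differential `f` on the vector field `D` -/
def RegDiff (D : Derivation k F F) (f : F) : Prop := ∀ P : Place k F, Ge P (vo P D) f

/-- a finite spanning set of the regular differentials -/
theorem exists_basis {D : Derivation k F F} (hD : D ≠ 0) :
    ∃ (m : ℕ) (g : Fin m → F), (∀ b, RegDiff D (g b)) ∧
      ∀ f, RegDiff D f → ∃ a : Fin m → k, f = ∑ b, a b • g b := by
  classical
  let E : Place k F →₀ ℤ := Finsupp.ofSupportFinite (fun P => -vo P D)
    ((vo_finite hD).subset fun P hP => by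
      simp only [Function.mem_support, ne_eq, neg_eq_zero] at hP
      exact hP)
  have hE : ∀ P, E P = -vo P D := fun P => rfl
  have hmem : ∀ f : F, f ∈ LL E ↔ RegDiff D f := by
    intro f
    rw [mem_LL]
    constructor
    · rintro (h | h) P
      · exact Or.inl h
      · right
        have := h P
        rw [hE] at this
        omega
    · intro h
      by_cases h0 : f = 0
      · exact Or.inl h0
      · right
        intro P
        have := (h P).resolve_left h0
        rw [hE]
        omega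
  let B := Module.finBasis k (LL E)
  refine ⟨_, fun b => (B b : F), fun b => (hmem _).1 (B b).2, fun f hf => ?_⟩
  refine ⟨fun b => B.repr ⟨f, (hmem f).2 hf⟩ b, ?_⟩
  have h1 := B.sum_repr ⟨f, (hmem f).2 hf⟩
  have h2 : ((∑ i, B.repr ⟨f, (hmem f).2 hf⟩ i • B i : LL E) : F) = f :=
    congrArg (Subtype.val : LL E → F) h1
  push_cast at h2
  exact h2.symm

variable {Ω : Type} [Field Ω] [Algebra k Ω] {ι : Type} [Fintype ι]

theorem core {D : Derivation k F F} (hD : D ≠ 0) (φ : ι → (F →ₐ[k] Ω))
    (hφ : Function.Injective φ) (n : ι → ℕ) (hn : ∀ i, n i = 1 ∨ n i = 2)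
    (hγ : ∀ b : F, Transcendental k b → ∑ i, n i < Module.finrank k⟮b⟯ F)
    (c d : ι → Ω) (hd : ∀ i, n i = 1 → d i = 0)
    (h : ∀ f : F, RegDiff D f → ∑ i, (c i * φ i f + d i * φ i (D f)) = 0) (i0 : ι) :
    (n i0 = 2 → d i0 = 0) ∧ (n i0 = 1 → c i0 = 0) := by
  classical
  obtain ⟨m, g, hg1, hg2⟩ := exists_basis hD
  obtain ⟨P, A, ψ, hP, hBad, hW, hZ⟩ := exists_spec φ hφ
    ((Finset.univ.image g) ∪ Finset.univ.image fun b => D (g b))
    ((Finset.univ.image c) ∪ Finset.univ.image d) (vo_finite hD).toFinset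
  have hvo : ∀ i, vo (P i) D = 0 := by
    intro i
    by_contra h
    exact hBad i ((vo_finite hD).mem_toFinset.2 h)
  choose hcA hcψ using fun i => hW (c i) (Finset.mem_union_left _ (Finset.mem_image_of_mem _ (Finset.mem_univ i)))
  choose hdA hdψ using fun i => hW (d i) (Finset.mem_union_right _ (Finset.mem_image_of_mem _ (Finset.mem_univ i)))
  choose hgA hgP using fun b => hZ (g b) (Finset.mem_union_left _ (Finset.mem_image_of_mem _ (Finset.mem_univ b)))
  choose hDA hDP using fun b => hZ (D (g b)) (Finset.mem_union_right _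
    (Finset.mem_image.2 ⟨b, Finset.mem_univ b, rfl⟩))
  -- the specialised relation
  have hrel : ∀ b, ∑ i, (ψ ⟨c i, hcA i⟩ * ψ ⟨φ i (g b), hgA b i⟩ +
      ψ ⟨d i, hdA i⟩ * ψ ⟨φ i (D (g b)), hDA b i⟩) = 0 := by
    intro b
    have h1 := h (g b) (hg1 b)
    have h2 : (∑ i, ((⟨c i, hcA i⟩ : A) * ⟨φ i (g b), hgA b i⟩ +
        (⟨d i, hdA i⟩ : A) * ⟨φ i (D (g b)), hDA b i⟩)) = 0 := by
      apply Subtype.ext
      push_cast
      exact h1
    have h3 := congrArg ψ h2
    rw [map_sum, map_zero] at h3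
    rw [← h3]
    refine Finset.sum_congr rfl fun i _ => ?_
    rw [map_add, map_mul, map_mul]
  -- the multiplicity function
  let N : Place k F → ℕ := fun Q => ∑ i, if P i = Q then n i else 0
  have hNP : ∀ i, N (P i) = n i := by
    intro i
    change ∑ j, (if P j = P i then n j else 0) = n i
    rw [Finset.sum_eq_single i]
    · rw [if_pos rfl]
    · intro j _ hj
      rw [if_neg fun h => hj (hP h)]
    · intro h
      exact absurd (Finset.mem_univ i) h
  have hN0 : ∀ Q, N Q ≠ 0 → Q ∈ Finset.univ.image P := by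
    intro Q hQ
    by_contra hcon
    apply hQ
    refine Finset.sum_eq_zero fun i _ => ?_
    rw [if_neg]
    rintro rfl
    exact hcon (Finset.mem_image_of_mem _ (Finset.mem_univ i))
  have hNsum : ∑ Q ∈ Finset.univ.image P, N Q = ∑ i, n i := by
    rw [Finset.sum_image (fun i _ j _ h => hP h)]
    exact Finset.sum_congr rfl fun i _ => hNP i
  have hn1 : ∀ i, 1 ≤ n i := fun i => by rcases hn i with h | h <;> omega
  obtain ⟨f, hf0, hf1, hf2⟩ := exists_diff_gon hD N (Finset.univ.image P) hN0
    (by rw [hNsum]; exact hγ) (P i0) (by rw [hNP]; exact hn1 i0)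
  rw [hNP, hvo] at hf2
  have hf1' : ∀ i, i ≠ i0 → (n i : ℤ) ≤ (P i).ord f := by
    intro i hi
    have := hf1 (P i) fun h => hi (hP h)
    rw [hNP, hvo] at this
    omega
  have hfreg : RegDiff D f := by
    intro Q
    right
    by_cases hQ : Q = P i0
    · rw [hQ, hf2, hvo]
      have := hn1 i0
      omega
    · have := hf1 Q hQ
      omega
  obtain ⟨a, ha⟩ := hg2 f hfreg
  -- the values of `f` and of `D f`
  let ρ : ι → k := fun i => ∑ b, a b * ψ ⟨φ i (g b), hgA b i⟩
  let σ : ι → k := fun i => ∑ b, a b * ψ ⟨φ i (D (g b)), hDA b i⟩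
  have hρ : ∀ i, Ge (P i) 1 (f - algebraMap k F (ρ i)) := by
    intro i
    have e1 : f - algebraMap k F (ρ i) =
        ∑ b, algebraMap k F (a b) * (g b - algebraMap k F (ψ ⟨φ i (g b), hgA b i⟩)) := by
      simp only [ρ]
      rw [map_sum]
      conv_lhs => rw [ha]
      rw [← Finset.sum_sub_distrib]
      refine Finset.sum_congr rfl fun b _ => ?_
      rw [Algebra.smul_def, map_mul, mul_sub]
    rw [e1]
    refine Ge.sum _ _ fun b _ => ?_
    simpa using (Ge.const (P := P i) (a b)).mul (hgP b i)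
  have hσ : ∀ i, Ge (P i) 1 (D f - algebraMap k F (σ i)) := by
    intro i
    have e1 : D f - algebraMap k F (σ i) =
        ∑ b, algebraMap k F (a b) * (D (g b) - algebraMap k F (ψ ⟨φ i (D (g b)), hDA b i⟩)) := by
      simp only [σ]
      rw [map_sum]
      conv_lhs => rw [ha]
      rw [map_sum, ← Finset.sum_sub_distrib]
      refine Finset.sum_congr rfl fun b _ => ?_
      rw [D.map_smul, Algebra.smul_def, map_mul, mul_sub]
    rw [e1]
    refine Ge.sum _ _ fun b _ => ?_
    simpa using (Ge.const (P := P i) (a b)).mul (hDP b i)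
  have hrel' : ∑ i, (ψ ⟨c i, hcA i⟩ * ρ i + ψ ⟨d i, hdA i⟩ * σ i) = 0 := by
    have h1 : ∑ b, a b * (∑ i, (ψ ⟨c i, hcA i⟩ * ψ ⟨φ i (g b), hgA b i⟩ +
      ψ ⟨d i, hdA i⟩ * ψ ⟨φ i (D (g b)), hDA b i⟩)) = 0 :=
      Finset.sum_eq_zero fun b _ => by rw [hrel b, mul_zero]
    rw [← h1]
    simp only [ρ, σ, Finset.mul_sum, mul_add, Finset.sum_add_distrib]
    congr 1
    · rw [Finset.sum_comm]
      refine Finset.sum_congr rfl fun b _ => Finset.sum_congr rfl fun i _ => ?_
      ring
    · rw [Finset.sum_comm]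
      refine Finset.sum_congr rfl fun b _ => Finset.sum_congr rfl fun i _ => ?_
      ring
  have hconst : ∀ (i : ι) (c : k), Ge (P i) 1 (algebraMap k F c) → c = 0 := by
    intro i c hc
    by_contra h0
    rcases hc with hc | hc
    · exact h0 ((map_eq_zero _).1 hc)
    · rw [(P i).ord_const h0] at hc
      omega
  have hzero : ∀ (i : ι) (y : F) (c : k), Ge (P i) 1 (y - algebraMap k F c) → Ge (P i) 1 y →
      c = 0 := by
    intro i y c h1 h2
    apply hconst i
    have := h2.sub h1
    rwa [sub_sub_cancel] at this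
  have hunit : ∀ (i : ι) (y : F) (c : k), Ge (P i) 1 (y - algebraMap k F c) → y ≠ 0 →
      (P i).ord y = 0 → c ≠ 0 := by
    rintro i y c h1 hy0 hy rfl
    rw [map_zero, sub_zero] at h1
    have := h1.resolve_left hy0
    omega
  have hDord : ∀ i, (P i).ord f ≠ 0 → D f ≠ 0 ∧ (P i).ord (D f) = (P i).ord f - 1 := by
    intro i hi
    have := ord_der (P i) hD (f := f) hi
    rw [hvo] at this
    refine ⟨this.1, ?_⟩
    rw [this.2]
    ring
  -- the other terms vanish
  have hother : ∀ i, i ≠ i0 → ψ ⟨c i, hcA i⟩ * ρ i + ψ ⟨d i, hdA i⟩ * σ i = 0 := by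
    intro i hi
    have h1 := hf1' i hi
    have h2 := hn1 i
    have h3 : ρ i = 0 := hzero i f _ (hρ i) (Or.inr (by omega))
    rw [h3, mul_zero, zero_add]
    rcases hn i with h4 | h4
    · have h5 : (⟨d i, hdA i⟩ : A) = 0 := Subtype.ext (hd i h4)
      rw [h5, map_zero, zero_mul]
    · have h5 := hDord i (by omega)
      rw [hzero i (D f) _ (hσ i) (Or.inr (by omega)), mul_zero]
  rw [Finset.sum_eq_single i0 (fun i _ hi => hother i hi)
    (fun h => absurd (Finset.mem_univ i0) h)] at hrel'
  constructor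
  · intro h2
    by_contra hne
    have h3 : (P i0).ord f = 1 := by
      rw [hf2, h2]
      norm_num
    have h4 := hDord i0 (by omega)
    have h5 : ρ i0 = 0 := hzero i0 f _ (hρ i0) (Or.inr (by omega))
    have h6 : σ i0 ≠ 0 := hunit i0 (D f) _ (hσ i0) h4.1 (by omega)
    rw [h5, mul_zero, zero_add] at hrel'
    rcases mul_eq_zero.1 hrel' with h7 | h7
    · exact hdψ i0 hne h7
    · exact h6 h7
  · intro h2
    by_contra hne
    have h3 : (P i0).ord f = 0 := by
      rw [hf2, h2]
      norm_num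
    have h5 : ρ i0 ≠ 0 := hunit i0 f _ (hρ i0) hf0 h3
    have h6 : (⟨d i0, hdA i0⟩ : A) = 0 := Subtype.ext (hd i0 h2)
    rw [h6, map_zero, zero_mul, add_zero] at hrel'
    rcases mul_eq_zero.1 hrel' with h7 | h7
    · exact hcψ i0 hne h7
    · exact h5 h7

/-- **Independence.** -/
theorem indep {D : Derivation k F F} (hD : D ≠ 0) (φ : ι → (F →ₐ[k] Ω))
    (hφ : Function.Injective φ)
    (hγ : ∀ b : F, Transcendental k b → Fintype.card ι < Module.finrank k⟮b⟯ F)
    (c : ι → Ω) (h : ∀ f : F, RegDiff D f → ∑ i, c i * φ i f = 0) (i : ι) : c i = 0 := by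
  refine (core hD φ hφ (fun _ => 1) (fun _ => Or.inl rfl) (by simpa using hγ) c (fun _ => 0)
    (fun _ _ => rfl) (fun f hf => ?_) i).2 rfl
  simpa using h f hf

/-- **Independence** with derivatives. -/
theorem indep_two {D : Derivation k F F} (hD : D ≠ 0) (φ : ι → (F →ₐ[k] Ω))
    (hφ : Function.Injective φ)
    (hγ : ∀ b : F, Transcendental k b → 2 * Fintype.card ι < Module.finrank k⟮b⟯ F)
    (c d : ι → Ω) (h : ∀ f : F, RegDiff D f → ∑ i, (c i * φ i f + d i * φ i (D f)) = 0)
    (i : ι) : c i = 0 ∧ d i = 0 := by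
  have h1 : ∀ i, d i = 0 := fun i =>
    (core hD φ hφ (fun _ => 2) (fun _ => Or.inr rfl) (fun b hb => by
      have := hγ b hb
      simp only [Finset.sum_const, Finset.card_univ, smul_eq_mul]
      omega) c d (fun _ h => by omega) h i).1 rfl
  refine ⟨indep hD φ hφ (fun b hb => by have := hγ b hb; omega) c (fun f hf => ?_) i, h1 i⟩
  rw [← h f hf]
  refine Finset.sum_congr rfl fun j _ => ?_
  rw [h1 j, zero_mul, add_zero]

end

end Q36.SD
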