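import Pool.Agent.Q36.SD.In
import Pool.Agent.W619.TW.Inter

/-!
Extension of the constants: linear disjointness and traces.
-/

set_option autoImplicit false
set_option linter.overlappingInstances false
set_option linter.unusedSectionVars false

open Polynomial FF IsDedekindDomain IntermediateField
open Pool.Agent.W603.LV Pool.Agent.W619.PQ Pool.Agent.W619.TW

namespace Q36.SD

/-- a derivation which vanishes on a field vanishes on the algebraic elements -/
theorem der_alg {k K V : Type} [Field k] [CharZero k] [Field K] [Algebra k K] [Field V]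
    [Algebra k V] [Algebra K V] [IsScalarTower k K V] (S : IntermediateField k K)
    (δ : Derivation k K V) (hS : ∀ z ∈ S, δ z = 0) {z : K} (hz : IsAlgebraic S z) : δ z = 0 := by
  have hchar : CharZero S := charZero_of_injective_algebraMap (algebraMap k S).injective
  let δ' : Derivation S K V :=
    { toFun := δ
      map_add' := map_add δ
      map_smul' := by
        intro c x
        rw [RingHom.id_apply, Algebra.smul_def, δ.leibniz]
        have h1 : δ (algebraMap S K c) = 0 := hS _ c.2
        rw [h1, smul_zero, add_zero]
        rfl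
      map_one_eq_zero' := δ.map_one_eq_zero
      leibniz' := δ.leibniz }
  have h1 := δ'.map_aeval (minpoly S z) z
  rw [minpoly.aeval, map_zero] at h1
  have h2 : aeval z (derivative (minpoly S z)) ≠ 0 :=
    ((minpoly.irreducible hz.isIntegral).separable).aeval_derivative_ne_zero (minpoly.aeval _ _)
  have h3 := (smul_eq_zero.1 h1.symm).resolve_left h2
  exact h3

section

variable {k M N : Type} [Field k] [CharZero k] [IsAlgClosed k] [Field M] [Algebra k M]
  {E F : IntermediateField k M} [Field N] [Algebra k N] [Algebra M N] [IsScalarTower k M N]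

/-- **Linear disjointness.** -/
theorem ind_up (hC : Cur E F) {A FN : IntermediateField k N} (hCN : Cur A FN)
    (hFN : ∀ z ∈ F, algebraMap M N z ∈ FN) (hEA : ∀ z ∈ E, algebraMap M N z ∈ A) {ι : Type}
    (e : ι → N) (he : ∀ j, e j ∈ A) (hind : LinearIndependent E e) :
    LinearIndependent M e := by
  classical
  rw [linearIndependent_iff']
  intro s g hg j hj
  choose a ha b hb hb0 hgab using fun j => hC.frac (g j)
  let d : M := ∏ l ∈ s, b l
  have hd0 : d ≠ 0 := Finset.prod_ne_zero_iff.2 fun l _ => hb0 l
  have hmem : ∀ l ∈ s, d * g l ∈ RR E F := by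
    intro l hl
    have h1 : d * g l = a l * ∏ l' ∈ s.erase l, b l' := by
      have h2 : d = b l * ∏ l' ∈ s.erase l, b l' := (Finset.mul_prod_erase s b hl).symm
      rw [h2, hgab l]
      have := hb0 l
      field_simp
    rw [h1]
    exact mul_mem (ha l) (prod_mem fun l' _ => hb l')
  let B := Module.Basis.ofVectorSpace k E
  have hexp : ∀ l, ∃ (S : Finset (Module.Basis.ofVectorSpaceIndex k E))
      (β : Module.Basis.ofVectorSpaceIndex k E → F), l ∈ s →
      d * g l = ∑ i ∈ S, ((B i : E) : M) * (β i : M) := by
    intro l
    by_cases hl : l ∈ s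
    · obtain ⟨S, β, h⟩ := RR.expand (hmem l hl)
      exact ⟨S, β, fun _ => h⟩
    · exact ⟨∅, fun _ => 0, fun h => absurd h hl⟩
  choose S β hβ using hexp
  let T : Finset (Module.Basis.ofVectorSpaceIndex k E) := s.biUnion S
  let β' : ι → Module.Basis.ofVectorSpaceIndex k E → F := fun l i => if i ∈ S l then β l i else 0
  have hβ' : ∀ l ∈ s, d * g l = ∑ i ∈ T, ((B i : E) : M) * (β' l i : M) := by
    intro l hl
    rw [hβ l hl]
    have h1 : S l ⊆ T := Finset.subset_biUnion_of_mem S hl
    rw [← Finset.sum_subset h1]
    · refine Finset.sum_congr rfl fun i hi => ?_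
      simp only [β', if_pos hi]
    · intro i _ hi
      simp only [β', if_neg hi]
      change _ * (0 : M) = 0
      rw [mul_zero]
  -- the independent family
  let m : Module.Basis.ofVectorSpaceIndex k E × ι → A := fun p =>
    ⟨algebraMap M N ((B p.1 : E) : M) * e p.2, mul_mem (hEA _ (B p.1).2) (he p.2)⟩
  have hm : LinearIndependent k m := by
    have h1 : LinearIndependent k (fun p : Module.Basis.ofVectorSpaceIndex k E × ι =>
        (B p.1 : E) • e p.2) := linearIndependent_smul B.linearIndependent hind
    refine LinearIndependent.of_comp (A.val.toLinearMap) ?_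
    have h2 : (A.val.toLinearMap ∘ m) = fun p : Module.Basis.ofVectorSpaceIndex k E × ι =>
        (B p.1 : E) • e p.2 := by
      funext p
      rw [Algebra.smul_def]
      rfl
    rw [h2]
    exact h1
  have h2 := hCN.linDisj m hm
  rw [linearIndependent_iff'] at h2
  have h3 := h2 (T ×ˢ s) (fun p => ⟨algebraMap M N (β' p.2 p.1 : M), hFN _ (β' p.2 p.1).2⟩) (by
    rw [Finset.sum_product, Finset.sum_comm]
    have h4 : ∑ l ∈ s, algebraMap M N (d * g l) * e l = 0 := by
      have h5 : ∑ l ∈ s, algebraMap M N (d * g l) * e l =
          algebraMap M N d * ∑ l ∈ s, g l • e l := by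
        rw [Finset.mul_sum]
        refine Finset.sum_congr rfl fun l _ => ?_
        rw [Algebra.smul_def, map_mul]
        ring
      rw [h5, hg, mul_zero]
    rw [← h4]
    refine Finset.sum_congr rfl fun l hl => ?_
    rw [hβ' l hl, map_sum, Finset.sum_mul]
    refine Finset.sum_congr rfl fun i _ => ?_
    rw [Algebra.smul_def, map_mul]
    change algebraMap M N (β' l i : M) * (algebraMap M N ((B i : E) : M) * e l) = _
    ring)
  have h6 : d * g j = 0 := by
    rw [hβ' j hj]
    refine Finset.sum_eq_zero fun i hi => ?_
    have h7 := congrArg (Subtype.val : FN → N) (h3 (i, j) (Finset.mem_product.2 ⟨hi, hj⟩))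
    have h8 : algebraMap M N (β' j i : M) = 0 := h7
    rw [map_eq_zero] at h8
    rw [h8, mul_zero]
  exact (mul_eq_zero.1 h6).resolve_left hd0

end

section

variable {k L M N : Type} [Field k] [CharZero k] [IsAlgClosed k] [Field L] [Field M] [Algebra k L]
  [Algebra k M] [Algebra L M] [IsScalarTower k L M] [FiniteDimensional L M]
  {E F : IntermediateField k M} [Field N] [Algebra k N] [Algebra M N] [IsScalarTower k M N]
  [Algebra L N] [IsScalarTower L M N] [IsScalarTower k L N]

/-- the elements of the compositum -/
theorem mem_span_up (hEL : ∀ z ∈ E, z ∈ Set.range (algebraMap L M)) {A : IntermediateField k N}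
    (hA : ∀ a ∈ A, IsAlgebraic E a) {z : N}
    (hz : z ∈ IntermediateField.adjoin A (Set.range (algebraMap L N))) :
    z ∈ Submodule.span L (A : Set N) := by
  have hAL : ∀ a ∈ A, IsAlgebraic L a := by
    intro a ha
    obtain ⟨p, hp0, hp⟩ := hA a ha
    -- lift the coefficients to `L`
    have hl : ∀ c : E, ∃ y : L, algebraMap L M y = (c : M) := fun c => hEL _ c.2
    choose l hl using hl
    let φ : E →+* L :=
      { toFun := l
        map_one' := by
          apply (algebraMap L M).injective
          rw [hl, map_one]
          rfl
        map_mul' := by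
          intro a b
          apply (algebraMap L M).injective
          rw [hl, map_mul, hl, hl]
          rfl
        map_zero' := by
          apply (algebraMap L M).injective
          rw [hl, map_zero]
          rfl
        map_add' := by
          intro a b
          apply (algebraMap L M).injective
          rw [hl, map_add, hl, hl]
          rfl }
    refine ⟨p.map φ, (Polynomial.map_ne_zero_iff φ.injective).2 hp0, ?_⟩
    rw [aeval_def, eval₂_map]
    rw [aeval_def] at hp
    have h1 : (algebraMap L N).comp φ = algebraMap E N := by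
      ext c
      change algebraMap L N (l c) = algebraMap M N (c : M)
      rw [IsScalarTower.algebraMap_apply L M N, hl]
    rw [h1]
    exact hp
  have h1 : z ∈ IntermediateField.adjoin L (A : Set N) := by
    induction hz using IntermediateField.adjoin_induction with
    | mem z hz =>
      obtain ⟨y, rfl⟩ := hz
      exact (IntermediateField.adjoin L (A : Set N)).algebraMap_mem y
    | algebraMap a => exact IntermediateField.subset_adjoin L _ a.2
    | add a b _ _ ha hb => exact add_mem ha hb
    | inv a _ ha => exact inv_mem ha
    | mul a b _ _ ha hb => exact mul_mem ha hb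
  have h2 : z ∈ (IntermediateField.adjoin L (A : Set N)).toSubalgebra := h1
  rw [IntermediateField.adjoin_toSubalgebra_of_isAlgebraic hAL] at h2
  have h3 : Subalgebra.toSubmodule (Algebra.adjoin L (A : Set N)) = Submodule.span L (A : Set N) := by
    rw [Algebra.adjoin_eq_span]
    congr 1
    apply le_antisymm
    · intro y hy
      have h4 : Submonoid.closure (A : Set N) ≤ A.toSubfield.toSubmonoid := by
        rw [Submonoid.closure_le]
        exact fun z hz => hz
      exact h4 hy
    · exact fun z hz => Submonoid.subset_closure hz
  rw [← h3]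
  exact h2

/-- **A basis of `M` over `L` remains independent.** -/
theorem basis_ind (hC : Cur E F) (hEL : ∀ z ∈ E, z ∈ Set.range (algebraMap L M))
    {A FN : IntermediateField k N} (hCN : Cur A FN)
    (hFN : ∀ z ∈ F, algebraMap M N z ∈ FN) (hEA : ∀ z ∈ E, algebraMap M N z ∈ A)
    (hA : ∀ a ∈ A, IsAlgebraic E a) {ι : Type} (b : ι → M) (hb : LinearIndependent L b) :
    LinearIndependent (IntermediateField.adjoin A (Set.range (algebraMap L N)))
      (fun j => algebraMap M N (b j)) := by
  classical
  -- a basis of `A` over `E`
  let AE : Submodule E N :=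
    { carrier := A
      add_mem' := fun ha hb => add_mem ha hb
      zero_mem' := zero_mem A
      smul_mem' := by
        intro c x hx
        rw [Algebra.smul_def]
        exact mul_mem (hEA _ c.2) hx }
  let e := Module.Basis.ofVectorSpace E AE
  have he : LinearIndependent E (fun i => (e i : N)) :=
    e.linearIndependent.map' AE.subtype (Submodule.ker_subtype AE)
  have heM : LinearIndependent M (fun i => (e i : N)) := by
    have h1 := ind_up hC hCN hFN hEA (fun i => (e i : N)) (fun i => (e i).2) he
    exact h1
  have hspan : (A : Set N) ⊆ Submodule.span L (Set.range fun i => (e i : N)) := by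
    intro a ha
    have h1 : (⟨a, ha⟩ : AE) ∈ Submodule.span E (Set.range e) := by
      rw [e.span_eq]
      trivial
    have h2 : ∀ y : AE, y ∈ Submodule.span E (Set.range e) →
        (y : N) ∈ Submodule.span L (Set.range fun i => (e i : N)) := by
      intro y hy
      induction hy using Submodule.span_induction with
      | mem x hx =>
        obtain ⟨i, rfl⟩ := hx
        exact Submodule.subset_span ⟨i, rfl⟩
      | zero => exact Submodule.zero_mem _
      | add x y _ _ hx hy => exact Submodule.add_mem _ hx hy
      | smul c x _ hx =>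
        obtain ⟨l, hl⟩ := hEL _ c.2
        have h3 := Submodule.smul_mem _ l hx
        convert h3 using 1
        change ((c • x : AE) : N) = _
        rw [Algebra.smul_def, IsScalarTower.algebraMap_apply L M N, hl]
        change (c : E) • (x : N) = _
        rw [Algebra.smul_def]
        rfl
    exact h2 _ h1
  rw [linearIndependent_iff']
  intro s g hg j hj
  have hgs : ∀ j, (g j : N) ∈ Submodule.span L (Set.range fun i => (e i : N)) := by
    intro j
    have h1 := mem_span_up hEL hA (g j).2
    exact (Submodule.span_le.2 hspan) h1
  choose c hc using fun j => (Finsupp.mem_span_range_iff_exists_finsupp).1 (hgs j)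
  let T := s.biUnion fun j => (c j).support
  have hcT : ∀ j ∈ s, (g j : N) = ∑ i ∈ T, c j i • (e i : N) := by
    intro j hj
    rw [← hc j, Finsupp.sum]
    refine Finset.sum_subset (Finset.subset_biUnion_of_mem (fun j => (c j).support) hj) ?_
    intro i _ hi
    rw [Finsupp.notMem_support_iff.1 hi, zero_smul]
  have h1 : ∑ i ∈ T, (∑ j ∈ s, c j i • b j) • (e i : N) = 0 := by
    have h2 : ∑ j ∈ s, (g j : N) * algebraMap M N (b j) = 0 := hg
    rw [← h2]
    have h3 : ∀ j ∈ s, (g j : N) * algebraMap M N (b j) =
        ∑ i ∈ T, (c j i • b j) • (e i : N) := by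
      intro j hj
      rw [hcT j hj, Finset.sum_mul]
      refine Finset.sum_congr rfl fun i _ => ?_
      rw [Algebra.smul_def (c j i) (e i : N), Algebra.smul_def (c j i • b j) (e i : N),
        Algebra.smul_def (c j i) (b j), map_mul, ← IsScalarTower.algebraMap_apply]
      ring
    rw [Finset.sum_congr rfl h3, Finset.sum_comm]
    refine Finset.sum_congr rfl fun i _ => ?_
    rw [Finset.sum_smul]
  rw [linearIndependent_iff'] at heM hb
  have h4 : ∀ i ∈ T, c j i = 0 := fun i hi => hb s (fun j => c j i) (heM T _ h1 i hi) j hj
  apply Subtype.ext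
  rw [hcT j hj]
  exact Finset.sum_eq_zero fun i hi => by rw [h4 i hi, zero_smul]

/-- **The traces.** -/
theorem trace_up (hC : Cur E F) (hEL : ∀ z ∈ E, z ∈ Set.range (algebraMap L M))
    {A FN : IntermediateField k N} (hCN : Cur A FN)
    (hFN : ∀ z ∈ F, algebraMap M N z ∈ FN) (hFN' : ∀ z ∈ FN, z ∈ Set.range (algebraMap M N))
    (hEA : ∀ z ∈ E, algebraMap M N z ∈ A) (hA : ∀ a ∈ A, IsAlgebraic E a) :
    FiniteDimensional (IntermediateField.adjoin A (Set.range (algebraMap L N))) N ∧
    ∀ y : M, (Algebra.trace (IntermediateField.adjoin A (Set.range (algebraMap L N))) N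
      (algebraMap M N y) : N) = algebraMap L N (Algebra.trace L M y) := by
  classical
  set Lb := IntermediateField.adjoin A (Set.range (algebraMap L N)) with hLb
  let b := Module.finBasis L M
  have hind := basis_ind hC hEL hCN hFN hEA hA b b.linearIndependent
  have hLmem : ∀ y : L, algebraMap L N y ∈ Lb := fun y =>
    IntermediateField.subset_adjoin A _ ⟨y, rfl⟩
  have hMspan : ∀ y : M, algebraMap M N y ∈
      Submodule.span Lb (Set.range fun j => algebraMap M N (b j)) := by
    intro y
    rw [← b.sum_repr y, map_sum]
    refine Submodule.sum_mem _ fun j _ => ?_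
    have h1 : algebraMap M N (b.repr y j • b j) =
        (⟨algebraMap L N (b.repr y j), hLmem _⟩ : Lb) • algebraMap M N (b j) := by
      rw [Algebra.smul_def, Algebra.smul_def, map_mul, ← IsScalarTower.algebraMap_apply]
      rfl
    rw [h1]
    exact Submodule.smul_mem _ _ (Submodule.subset_span ⟨j, rfl⟩)
  have hspan : ⊤ ≤ Submodule.span Lb (Set.range fun j => algebraMap M N (b j)) := by
    have halg : ∀ y ∈ Set.range (algebraMap M N), IsAlgebraic Lb y := by
      rintro _ ⟨y, rfl⟩
      have h1 : IsAlgebraic L y := Algebra.IsAlgebraic.isAlgebraic y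
      have h2 : IsAlgebraic L (algebraMap M N y) := h1.algebraMap
      let φ : L →+* Lb := (algebraMap L N).codRestrict Lb hLmem
      exact h2.ringHom_of_comp_eq φ (RingHom.id N) φ.injective (by ext z; rfl)
    have h1 : (IntermediateField.adjoin Lb (Set.range (algebraMap M N))) = ⊤ := by
      have h2 : (⊤ : IntermediateField k N) ≤
          ((IntermediateField.adjoin Lb (Set.range (algebraMap M N))).restrictScalars
            A).restrictScalars k := by
        rw [← hCN.sup, sup_le_iff]
        constructor
        · intro z hz
          have h3 : z ∈ Lb := Lb.algebraMap_mem ⟨z, hz⟩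
          exact (IntermediateField.adjoin Lb (Set.range (algebraMap M N))).algebraMap_mem ⟨z, h3⟩
        · intro z hz
          exact IntermediateField.subset_adjoin Lb _ (hFN' z hz)
      rw [eq_top_iff]
      intro z _
      exact h2 (by trivial : z ∈ (⊤ : IntermediateField k N))
    have h2 := IntermediateField.adjoin_toSubalgebra_of_isAlgebraic halg
    rw [h1] at h2
    have h3 : Subalgebra.toSubmodule (Algebra.adjoin Lb (Set.range (algebraMap M N))) =
        Submodule.span Lb (Set.range (algebraMap M N)) := by
      rw [Algebra.adjoin_eq_span]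
      congr 1
      have h4 : Submonoid.closure (Set.range (algebraMap M N)) = (algebraMap M N).range.toSubmonoid := by
        apply le_antisymm
        · rw [Submonoid.closure_le]
          rintro _ ⟨y, rfl⟩
          exact ⟨y, rfl⟩
        · rintro _ ⟨y, rfl⟩
          exact Submonoid.subset_closure ⟨y, rfl⟩
      rw [h4]
      ext z
      exact Iff.rfl
    intro z _
    have h5 : z ∈ (⊤ : IntermediateField Lb N).toSubalgebra := by trivial
    rw [h2] at h5
    have h6 : z ∈ Submodule.span Lb (Set.range (algebraMap M N)) := by
      rw [← h3]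
      exact h5
    refine (Submodule.span_le.2 ?_) h6
    rintro _ ⟨y, rfl⟩
    exact hMspan y
  let b' : Module.Basis (Fin (Module.finrank L M)) Lb N := Module.Basis.mk hind hspan
  have hb' : ∀ j, b' j = algebraMap M N (b j) := fun j => by
    rw [Module.Basis.mk_apply]
  refine ⟨Module.Finite.of_basis b', fun y => ?_⟩
  rw [Algebra.trace_eq_matrix_trace b', Algebra.trace_eq_matrix_trace b, Matrix.trace,
    Matrix.trace, map_sum, AddSubmonoidClass.coe_finsetSum]
  refine Finset.sum_congr rfl fun j _ => ?_
  rw [Matrix.diag_apply, Matrix.diag_apply, Algebra.leftMulMatrix_eq_repr_mul,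
    Algebra.leftMulMatrix_eq_repr_mul]
  have h1 : algebraMap M N y * b' j =
      ∑ i, (⟨algebraMap L N (b.repr (y * b j) i), hLmem _⟩ : Lb) • b' i := by
    rw [hb', ← map_mul]
    conv_lhs => rw [← b.sum_repr (y * b j)]
    rw [map_sum]
    refine Finset.sum_congr rfl fun i _ => ?_
    rw [hb', Algebra.smul_def, Algebra.smul_def, map_mul, ← IsScalarTower.algebraMap_apply]
    rfl
  rw [h1, b'.repr_sum_self]

end

end Q36.SD
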