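import Pool.Agent.Q36.SD.La
import Pool.Agent.W619.TW.Hyp

/-!
Extension of the constants: a subfield on which the traces of the regular differentials vanish is
rational over the algebraic closure of the constants.
-/

set_option autoImplicit false
set_option linter.overlappingInstances false
set_option linter.unusedSectionVars false

open Polynomial FF IsDedekindDomain IntermediateField
open Pool.Agent.W603.LV Pool.Agent.W619.PQ Pool.Agent.W619.TW

namespace Q36.SD

section

variable {k F F' : Type} [Field k] [Field F] [Algebra k F] [Field F'] [Algebra k F']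

/-- transport of a place -/
def plc (e : F ≃ₐ[k] F') (q : Place k F') : Place k F where
  ord := fun f => q.ord (e f)
  ord_zero := by rw [map_zero, q.ord_zero]
  ord_mul := fun {f g} hf hg => by
    rw [map_mul, q.ord_mul ((map_ne_zero_iff e e.injective).2 hf)
      ((map_ne_zero_iff e e.injective).2 hg)]
  ord_add := fun {f g} hf hg hfg => by
    rw [map_add]
    refine q.ord_add ((map_ne_zero_iff e e.injective).2 hf)
      ((map_ne_zero_iff e e.injective).2 hg) ?_
    rw [← map_add]
    exact (map_ne_zero_iff e e.injective).2 hfg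
  ord_const := fun {c} hc => by
    rw [e.commutes, q.ord_const hc]
  surj := by
    obtain ⟨t, ht0, ht⟩ := q.surj
    refine ⟨e.symm t, (map_ne_zero_iff e.symm e.symm.injective).2 ht0, ?_⟩
    rw [e.apply_symm_apply, ht]

/-- transport of a derivation -/
def derT (e : F ≃ₐ[k] F') (D : Derivation k F F) : Derivation k F' F' where
  toFun := fun z => e (D (e.symm z))
  map_add' := fun a b => by rw [map_add, map_add, map_add]
  map_smul' := fun c a => by rw [map_smul, D.map_smul, map_smul, RingHom.id_apply]
  map_one_eq_zero' := by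
    change e (D (e.symm 1)) = 0
    rw [map_one, D.map_one_eq_zero, map_zero]
  leibniz' := fun a b => by
    change e (D (e.symm (a * b))) = _
    rw [map_mul, D.leibniz, map_add, smul_eq_mul, smul_eq_mul, map_mul, map_mul,
      e.apply_symm_apply, e.apply_symm_apply]
    rfl

theorem derT_apply (e : F ≃ₐ[k] F') (D : Derivation k F F) (z : F') :
    derT e D z = e (D (e.symm z)) := rfl

theorem derT_ne {e : F ≃ₐ[k] F'} {D : Derivation k F F} (hD : D ≠ 0) : derT e D ≠ 0 := by
  intro h
  apply hD
  ext z
  have h1 := congrArg (fun Δ : Derivation k F' F' => e.symm (Δ (e z))) h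
  simp only [derT_apply, e.symm_apply_apply, Derivation.coe_zero, Pi.zero_apply, map_zero] at h1
  rw [h1]
  rfl

theorem regDiff_symm [CharZero k] [IsAlgClosed k] [IsFF k F] [IsFF k F'] (e : F ≃ₐ[k] F')
    {D : Derivation k F F} (hD : D ≠ 0) {f : F'} (h : RegDiff (derT e D) f) :
    RegDiff D (e.symm f) := by
  intro P
  have h1 := h (plc e.symm P)
  have hπ : P.ord (unif P) = 1 := ord_unif P
  have h2 : (plc e.symm P).ord (e (unif P)) = 1 := by
    change P.ord (e.symm (e (unif P))) = 1
    rw [e.symm_apply_apply, hπ]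
  have h3 := vo_eq (plc e.symm P) h2 (derT_ne hD : derT e D ≠ 0)
  have h4 : (plc e.symm P).ord (derT e D (e (unif P))) = P.ord (D (unif P)) := by
    change P.ord (e.symm (e (D (e.symm (e (unif P)))))) = _
    rw [e.symm_apply_apply, e.symm_apply_apply]
  have h5 : vo (plc e.symm P) (derT e D) = vo P D := by
    unfold vo at h3 ⊢
    omega
  rw [h5] at h1
  rcases h1 with h1 | h1
  · left
    rw [h1, map_zero]
  · right
    exact h1

end

section

variable {k L M N : Type} [Field k] [CharZero k] [IsAlgClosed k] [Field L] [Field M] [Algebra k L]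
  [Algebra k M] [Algebra L M] [IsScalarTower k L M] [FiniteDimensional L M]
  {E F : IntermediateField k M} [Field N] [Algebra k N] [Algebra M N] [IsScalarTower k M N]
  [Algebra L N] [IsScalarTower L M N] [IsScalarTower k L N]

/-- **Rationality over the algebraic closure of the constants.** -/
theorem rational_up (hC : Cur E F) (hEL : ∀ z ∈ E, z ∈ Set.range (algebraMap L M))
    {A FN : IntermediateField k N} (hCN : Cur A FN)
    (hFN : ∀ z ∈ F, algebraMap M N z ∈ FN) (hFN' : ∀ z ∈ FN, ∃ y ∈ F, algebraMap M N y = z)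
    (hEA : ∀ z ∈ E, algebraMap M N z ∈ A) (hA : ∀ a ∈ A, IsAlgebraic E a) [IsAlgClosed A]
    {D0 : Derivation k F F} (hD0 : D0 ≠ 0) {t0 : F} (ht0 : Transcendental k t0)
    (D' : Derivation k M M) (DN : Derivation k N N)
    (hDM : ∀ z, DN (algebraMap M N z) = algebraMap M N (D' z)) (hDA : ∀ a ∈ A, DN a = 0)
    (hDL : ∀ y : L, ∃ y' : L, DN (algebraMap L N y) = algebraMap L N y')
    (hDne : ∃ y : L, DN (algebraMap L N y) ≠ 0)
    (hrel : ∀ f : F, RegDiff D0 f →
      Algebra.trace L M ((f : M) / (D0 t0 : M) * D' (t0 : M)) = 0) :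
    ∃ t : IntermediateField.adjoin A (Set.range (algebraMap L N)), A⟮t⟯ = ⊤ := by
  classical
  set Lb := IntermediateField.adjoin A (Set.range (algebraMap L N)) with hLb
  obtain ⟨hfin, htr⟩ := trace_up (L := L) hC hEL hCN hFN (fun z hz => by
    obtain ⟨y, -, h⟩ := hFN' z hz
    exact ⟨y, h⟩) hEA hA
  rw [← hLb] at hfin
  have hff := hC.ff
  have hffN := hCN.ff
  have hIN : IsFF A N := hCN.isFF
  have hcharA : CharZero A := charZero_M
  have hILb : IsFF A Lb := isFF_down (E0 := Lb) (E := N)
  by_contra hrat
  -- the derivations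
  let DA : Derivation A N N :=
    { toFun := DN
      map_add' := map_add DN
      map_smul' := by
        intro c x
        rw [RingHom.id_apply, Algebra.smul_def, DN.leibniz]
        have h1 : DN (algebraMap A N c) = 0 := hDA _ c.2
        rw [h1, smul_zero, add_zero]
        rfl
      map_one_eq_zero' := DN.map_one_eq_zero
      leibniz' := DN.leibniz }
  have hDAe : ∀ z, DA z = DN z := fun z => rfl
  have hDA0 : DA ≠ 0 := by
    intro h
    obtain ⟨y, hy⟩ := hDne
    apply hy
    rw [← hDAe, h]
    rfl
  have hpres : ∀ z ∈ Lb, DN z ∈ Lb := by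
    intro z hz
    have hz' : z ∈ IntermediateField.adjoin A (Set.range (algebraMap L N)) := hz
    clear hz
    induction hz' using IntermediateField.adjoin_induction with
    | mem z hz =>
      obtain ⟨y, rfl⟩ := hz
      obtain ⟨y', hy'⟩ := hDL y
      rw [hy']
      exact IntermediateField.subset_adjoin A _ ⟨y', rfl⟩
    | algebraMap a =>
      have h1 : DN (algebraMap A N a) = 0 := hDA _ a.2
      rw [h1]
      exact zero_mem _
    | add a b _ _ ha hb =>
      rw [map_add]
      exact add_mem ha hb
    | inv a ha ha' =>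
      rw [Derivation.leibniz_inv]
      exact mul_mem (neg_mem (pow_mem (inv_mem ha) 2)) ha'
    | mul a b ha hb ha' hb' =>
      rw [DN.leibniz]
      exact add_mem (mul_mem ha hb') (mul_mem hb ha')
  let DLb : Derivation A Lb Lb :=
    { toFun := fun z => ⟨DN z, hpres z z.2⟩
      map_add' := fun a b => Subtype.ext (map_add DN _ _)
      map_smul' := fun c a => Subtype.ext (DA.map_smul c (a : N))
      map_one_eq_zero' := Subtype.ext DN.map_one_eq_zero
      leibniz' := fun a b => Subtype.ext (DN.leibniz _ _) }
  have hDLbe : ∀ z : Lb, (DLb z : N) = DN z := fun z => rfl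
  have hDLb0 : DLb ≠ 0 := by
    intro h
    obtain ⟨y, hy⟩ := hDne
    apply hy
    have h1 := hDLbe ⟨algebraMap L N y, IntermediateField.subset_adjoin A _ ⟨y, rfl⟩⟩
    rw [h] at h1
    exact h1.symm
  obtain ⟨g, hg0, hg⟩ := exists_regular hrat hDLb0
  have hgN : (g : N) ≠ 0 := fun h => hg0 (Subtype.ext h)
  -- the pull-back
  have hpull : ∀ w : Place A N, vo w DA ≤ w.ord (g : N) := by
    intro w
    have hne : ∃ z : Lb, w.ord (algebraMap Lb N z) ≠ 0 := by
      by_contra hcon
      push Not at hcon
      obtain ⟨u, hu0, hu⟩ := w.surj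
      have h1 := ord_eq_zero_of_alg (K0 := Lb) (K1 := N) (K2 := N) w hcon u
      have h2 : algebraMap N N u = u := rfl
      rw [h2, hu] at h1
      omega
    obtain ⟨e, P, hP⟩ := exists_over (K := Lb) w hne
    obtain ⟨t, ht1, ht⟩ := P.surj
    have h1 : w.ord (algebraMap Lb N t) = e := by rw [hP.2, ht, mul_one]
    have h2 := ord_der w hDA0 (f := algebraMap Lb N t) (by
      rw [h1]
      have := hP.1
      omega)
    have h3 : DA (algebraMap Lb N t) = algebraMap Lb N (DLb t) := rfl
    rw [h3, hP.2, vo_eq P ht hDLb0, h1] at h2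
    have h4 : w.ord (g : N) = e * P.ord g := hP.2 g
    have h5 := hg P
    have h6 := hP.1
    have h7 : (e : ℤ) * vo P DLb ≤ e * P.ord g := mul_le_mul_of_nonneg_left h5 (by positivity)
    rw [h4]
    omega
  -- the quotient of the derivations
  have htN : (algebraMap M N (t0 : M)) ∈ FN := hFN _ t0.2
  let ef : F →ₐ[k] FN :=
    { toFun := fun z => ⟨algebraMap M N (z : M), hFN _ z.2⟩
      map_one' := Subtype.ext (by simp)
      map_mul' := fun a b => Subtype.ext (by simp)
      map_zero' := Subtype.ext (by simp)
      map_add' := fun a b => Subtype.ext (by simp)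
      commutes' := fun c => Subtype.ext (by
        change algebraMap M N (algebraMap k M c) = algebraMap k N c
        rw [← IsScalarTower.algebraMap_apply]) }
  have hefb : Function.Bijective ef := by
    refine ⟨ef.toRingHom.injective, fun z => ?_⟩
    obtain ⟨y, hy, h⟩ := hFN' z z.2
    exact ⟨⟨y, hy⟩, Subtype.ext h⟩
  let e : F ≃ₐ[k] FN := AlgEquiv.ofBijective ef hefb
  have he : ∀ z : F, ((e z : FN) : N) = algebraMap M N (z : M) := fun z => rfl
  have htFN : Transcendental k (e t0) := by
    intro h
    apply ht0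
    have := h.algHom (e.symm : FN →ₐ[k] F)
    simpa using this
  have htA : Transcendental A ((e t0 : FN) : N) := hCN.tr _ htFN
  have hDt0 : DA ((e t0 : FN) : N) ≠ 0 := der_ne_zero hDA0 htA
  have hD0t : D0 t0 ≠ 0 := der_ne_zero hD0 ht0
  have hD0tN : algebraMap M N (D0 t0 : M) ≠ 0 := by
    rw [Ne, map_eq_zero]
    exact fun h => hD0t (Subtype.ext h)
  set h : N := DN (algebraMap M N (t0 : M)) / algebraMap M N (D0 t0 : M) with hh
  have hh0 : h ≠ 0 := div_ne_zero hDt0 hD0tN
  have hform : ∀ β : F, DN (algebraMap M N (β : M)) = algebraMap M N (D0 β : M) * h := by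
    intro β
    have hst : IsScalarTower k F N := IsScalarTower.of_algebraMap_eq fun c => by
      rw [IsScalarTower.algebraMap_apply k M N]
      rfl
    obtain ⟨r, hr1, hr2⟩ := ratio' (k := k) (K := N) ht0 β
    have h1 := hr2 DN
    have h2 : ∀ z : F, algebraMap F N z = algebraMap M N (z : M) := fun z => rfl
    rw [h2, h2, h2] at h1
    rw [h1, hr1 D0, hh]
    change _ = algebraMap M N ((r : M) * (D0 t0 : M)) * _
    rw [map_mul]
    field_simp
  let D1 : Derivation k FN FN := derT e D0
  have hD1 : D1 ≠ 0 := derT_ne hD0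
  have hform1 : ∀ β : FN, DN (β : N) = (D1 β : N) * h := by
    intro β
    have h1 := hform (e.symm β)
    have h2 : algebraMap M N ((e.symm β : F) : M) = β := by
      rw [← he, e.apply_symm_apply]
    rw [h2] at h1
    rw [h1]
    rfl
  -- the function `z`
  set z : N := (g : N) / h with hz
  have hz0 : z ≠ 0 := div_ne_zero hgN hh0
  have hzord : ∀ w : Place A N, w.ord z = w.ord (g : N) - w.ord h := fun w => w.ord_div hgN hh0
  let D : Place k FN →₀ ℤ := Finsupp.ofSupportFinite (fun q => -vo q D1)
    ((vo_finite hD1).subset fun P hP => by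
      simp only [Function.mem_support, ne_eq, neg_eq_zero] at hP
      exact hP)
  have hD : ∀ q, D q = -vo q D1 := fun q => rfl
  obtain ⟨s, β, hs, hβ⟩ := hCN.mem_span D z (fun w hw => by
    right
    rw [hzord]
    have h1 : Pres (rk w) (h⁻¹ • DN) := by
      refine hCN.pres w (h⁻¹ • DN) (fun a ha => ?_) (fun β _ => ?_)
      · rw [Derivation.smul_apply, hDA a ha, smul_zero]
        exact zero_mem _
      · rw [Derivation.smul_apply, hform1, smul_eq_mul]
        have h2 : h⁻¹ * ((D1 β : N) * h) = (D1 β : N) := by field_simp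
        rw [h2]
        exact Or.inr (hw _).ge
    obtain ⟨u, hu0, hu⟩ := w.surj
    have h2 := h1 u (Or.inr (by
      change (0 : ℤ) ≤ w.ord u
      omega))
    have h3 := vo_eq w hu hDA0
    have h4 : DA u ≠ 0 := by
      have := (ord_der w hDA0 (f := u) (by omega)).1
      exact this
    rcases h2 with h2 | h2
    · rw [Derivation.smul_apply, smul_eq_mul] at h2
      rcases mul_eq_zero.1 h2 with h5 | h5
      · exact absurd h5 (inv_ne_zero hh0)
      · exact absurd h5 h4
    · rw [Derivation.smul_apply, smul_eq_mul] at h2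
      have h5 : (0 : ℤ) ≤ w.ord (h⁻¹ * DA u) := h2
      rw [w.ord_mul (inv_ne_zero hh0) h4, w.ord_inv] at h5
      have h6 := hpull w
      omega) (fun w q hq => by
    right
    rw [hD, hzord, neg_neg]
    obtain ⟨u, hu0, hu⟩ := q.surj
    have h1 : w.ord (u : N) = 1 := by rw [hq, hu]
    have h2 := vo_eq w h1 hDA0
    have h3 : DA (u : N) = (D1 u : N) * h := hform1 u
    have h4 : D1 u ≠ 0 := (ord_der q hD1 (f := u) (by omega)).1
    have h5 : (D1 u : N) ≠ 0 := fun h => h4 (Subtype.ext h)
    rw [h3, w.ord_mul h5 hh0, hq, vo_eq q hu hD1] at h2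
    have h6 := hpull w
    omega)
  -- the trace
  have htrz : Algebra.trace Lb N (g : N) = 0 := by
    have h1 : (g : N) = ∑ i ∈ s, ((⟨((Module.Basis.ofVectorSpace k A i : A) : N),
        Lb.algebraMap_mem _⟩ : Lb) • (((β i : FN) : N) * h)) := by
      have h2 : (g : N) = z * h := by
        rw [hz]
        field_simp
      rw [h2, hs, Finset.sum_mul]
      refine Finset.sum_congr rfl fun i _ => ?_
      rw [Algebra.smul_def, mul_assoc]
      rfl
    rw [h1, map_sum]
    refine Finset.sum_eq_zero fun i hi => ?_
    rw [map_smul]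
    have hreg : RegDiff D1 (β i) := by
      intro q
      rcases hβ i hi with h3 | h3
      · exact Or.inl h3
      · right
        have := h3 q
        rw [hD] at this
        omega
    have h4 := hrel (e.symm (β i)) (regDiff_symm e hD0 hreg)
    have h5 : ((β i : FN) : N) * h = algebraMap M N
        (((e.symm (β i) : F) : M) / (D0 t0 : M) * D' (t0 : M)) := by
      rw [map_mul, map_div₀, ← hDM, ← he, e.apply_symm_apply, hh]
      ring
    have h6 := htr (((e.symm (β i) : F) : M) / (D0 t0 : M) * D' (t0 : M))
    rw [h4, map_zero] at h6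
    have h7 : Algebra.trace Lb N (((β i : FN) : N) * h) = 0 := by
      rw [h5]
      exact Subtype.ext h6
    rw [h7, smul_zero]
  have h1 : Algebra.trace Lb N (algebraMap Lb N g) = Module.finrank Lb N • g :=
    Algebra.trace_algebraMap g
  have h2 : algebraMap Lb N g = (g : N) := rfl
  rw [h2, htrz] at h1
  have h3 : (Module.finrank Lb N : Lb) * g = 0 := by
    rw [← nsmul_eq_mul, ← h1]
  have hcharLb : CharZero Lb := charZero_of_injective_algebraMap (algebraMap A Lb).injective
  rcases mul_eq_zero.1 h3 with h4 | h4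
  · have h5 : 0 < Module.finrank Lb N := Module.finrank_pos
    rw [Nat.cast_eq_zero] at h4
    omega
  · exact hg0 h4

end

end Q36.SD
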