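import Pool.Agent.Q36.SD.Lb

/-!
Extension of the constants: construction of the extension, and the genus of the generic fibre.
-/

set_option autoImplicit false
set_option linter.overlappingInstances false
set_option linter.unusedSectionVars false

open Polynomial FF IsDedekindDomain IntermediateField
open Pool.Agent.W603.LV Pool.Agent.W619.PQ Pool.Agent.W619.TW

namespace Q36.SD

/-- transport of the property of being the function field of a curve -/
theorem isFF_equiv {k F F' : Type} [Field k] [CharZero k] [Field F] [Algebra k F] [Field F']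
    [Algebra k F'] [IsFF k F] (e : F ≃ₐ[k] F') : IsFF k F' := by
  let _ : Algebra F' F := ((e.symm : F' →ₐ[k] F) : F' →+* F).toAlgebra
  have h1 : IsScalarTower k F' F := IsScalarTower.of_algebraMap_eq fun c =>
    (e.symm.commutes c).symm
  have h2 : FiniteDimensional F' F :=
    Module.Finite.of_surjective (Algebra.linearMap F' F) e.symm.surjective
  exact isFF_down (E0 := F') (E := F)

/-- the varieties with function field `L` have a rational map to a variety with function field `E`,
with generic fibre of genus zero: over the algebraic extension `A` of `E`, the field `L` is contained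
in a field of rational functions of one variable -/
def GenusZeroOver {k L : Type} [Field k] [Field L] [Algebra k L] (E : IntermediateField k L) :
    Prop :=
  ∃ (A : Type) (_ : Field A) (_ : Algebra E A), Algebra.IsAlgebraic E A ∧
    Nonempty (L →ₐ[E] RatFunc A)

section

variable {k L M : Type} [Field k] [CharZero k] [IsAlgClosed k] [Field L] [Field M] [Algebra k L]
  [Algebra k M] [Algebra L M] [IsScalarTower k L M] [FiniteDimensional L M]
  {E F : IntermediateField k M} {n : ℕ}

/-- the genus of the generic fibre, with an algebraic closure of `M` -/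
theorem genus_aux (Ω : Type) [Field Ω] [IsAlgClosed Ω] [Algebra M Ω] [Algebra k Ω]
    [IsScalarTower k M Ω] [Algebra.IsAlgebraic M Ω]
    (hC : Cur E F) (hEL : ∀ z ∈ E, z ∈ Set.range (algebraMap L M))
    {D0 : Derivation k F F} (hD0 : D0 ≠ 0) {t0 : F} (ht0 : Transcendental k t0)
    (D : Derivation k L L) (D' : Derivation k M M)
    (hDD : ∀ y, D' (algebraMap L M y) = algebraMap L M (D y)) (hDE : ∀ z ∈ E, D' z = 0)
    (hDt : D' (t0 : M) ≠ 0) (t : Fin n → M) (ht : IsTranscendenceBasis k t) (i : Fin n)
    (hti : t i = t0) (htE : ∀ b, b ≠ i → t b ∈ E)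
    (hrel : ∀ f : F, RegDiff D0 f →
      Algebra.trace L M ((f : M) / (D0 t0 : M) * D' (t0 : M)) = 0) :
    GenusZeroOver (E.comap (IsScalarTower.toAlgHom k L M)) := by
  classical
  have hff := hC.ff
  let ι : M →ₐ[k] Ω := IsScalarTower.toAlgHom k M Ω
  have hι : ∀ z, ι z = algebraMap M Ω z := fun z => rfl
  let A0 : IntermediateField E Ω := algebraicClosure E Ω
  have hst : IsScalarTower k E Ω := IsScalarTower.of_algebraMap_eq fun c => by
    rw [IsScalarTower.algebraMap_apply k M Ω]
    rfl
  let A1 : IntermediateField k Ω := A0.restrictScalars k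
  let NN : IntermediateField k Ω := A1 ⊔ F.map ι
  have hA1 : A1 ≤ NN := le_sup_left
  have hF1 : F.map ι ≤ NN := le_sup_right
  have hEA1 : ∀ z ∈ E, ι z ∈ A1 := by
    intro z hz
    exact A0.algebraMap_mem ⟨z, hz⟩
  have hMN : ∀ z : M, ι z ∈ NN := by
    intro z
    have h1 : (⊤ : IntermediateField k M) ≤ NN.comap ι := by
      rw [← hC.sup, sup_le_iff]
      exact ⟨fun z hz => hA1 (hEA1 z hz), fun z hz => hF1 ⟨z, hz, rfl⟩⟩
    exact h1 (by trivial : z ∈ (⊤ : IntermediateField k M))
  let N : Type := NN
  let _ : Field N := inferInstanceAs (Field NN)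
  let _ : Algebra k N := inferInstanceAs (Algebra k NN)
  let ιN : M →ₐ[k] N := ι.codRestrict NN.toSubalgebra hMN
  let _ : Algebra M N := (ιN : M →+* N).toAlgebra
  have hMNe : ∀ z : M, ((algebraMap M N z : NN) : Ω) = ι z := fun z => rfl
  have st1 : IsScalarTower k M N := IsScalarTower.of_algebraMap_eq fun c =>
    (ιN.commutes c).symm
  let _ : Algebra L N := ((algebraMap M N).comp (algebraMap L M)).toAlgebra
  have st2 : IsScalarTower L M N := IsScalarTower.of_algebraMap_eq fun _ => rfl
  have st3 : IsScalarTower k L N := IsScalarTower.of_algebraMap_eq fun c => by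
    change algebraMap k N c = algebraMap M N (algebraMap L M (algebraMap k L c))
    rw [← IsScalarTower.algebraMap_apply k L M, ← IsScalarTower.algebraMap_apply k M N]
  let A : IntermediateField k N := IntermediateField.restrict hA1
  let FN : IntermediateField k N := IntermediateField.restrict hF1
  have hAm : ∀ z : N, z ∈ A ↔ (z : NN).1 ∈ A1 := fun z => IntermediateField.mem_restrict hA1 z
  have hFm : ∀ z : N, z ∈ FN ↔ (z : NN).1 ∈ F.map ι := fun z => IntermediateField.mem_restrict hF1 z
  have hFN : ∀ z ∈ F, algebraMap M N z ∈ FN := by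
    intro z hz
    rw [hFm]
    exact ⟨z, hz, rfl⟩
  have hFN' : ∀ z ∈ FN, ∃ y ∈ F, algebraMap M N y = z := by
    intro z hz
    rw [hFm] at hz
    obtain ⟨y, hy, h⟩ := hz
    exact ⟨y, hy, Subtype.ext h⟩
  have hEA : ∀ z ∈ E, algebraMap M N z ∈ A := by
    intro z hz
    rw [hAm]
    exact hEA1 z hz
  have hAalg1 : ∀ z ∈ A1, IsAlgebraic E z := by
    intro z hz
    have h1 : z ∈ A0 := hz
    rwa [mem_algebraicClosure_iff] at h1
  have hA : ∀ a ∈ A, IsAlgebraic E a := by
    intro a ha
    rw [hAm] at ha
    obtain ⟨p, hp0, hp⟩ := hAalg1 _ ha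
    refine ⟨p, hp0, Subtype.ext ?_⟩
    have h1 := Polynomial.hom_eval₂ p (algebraMap E N) (NN.val : NN →+* Ω) a
    have h2 : (NN.val : NN →+* Ω) (eval₂ (algebraMap E N) a p) = aeval ((a : NN) : Ω) p := by
      rw [aeval_def]
      exact h1
    rw [hp] at h2
    exact h2
  -- the curve over `A`
  let ef : F →ₐ[k] FN :=
    { toFun := fun z => ⟨algebraMap M N (z : M), hFN _ z.2⟩
      map_one' := Subtype.ext (by simp)
      map_mul' := fun a b => Subtype.ext (by simp)
      map_zero' := Subtype.ext (by simp)
      map_add' := fun a b => Subtype.ext (by simp)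
      commutes' := fun c => Subtype.ext (by
        change algebraMap M N (algebraMap k M c) = algebraMap k N c
        rw [← IsScalarTower.algebraMap_apply]) }
  have hefb : Function.Bijective ef := by
    refine ⟨ef.toRingHom.injective, fun z => ?_⟩
    obtain ⟨y, hy, h⟩ := hFN' z z.2
    exact ⟨⟨y, hy⟩, Subtype.ext h⟩
  let e : F ≃ₐ[k] FN := AlgEquiv.ofBijective ef hefb
  have he : ∀ z : F, ((e z : FN) : N) = algebraMap M N (z : M) := fun z => rfl
  have hCN : Cur A FN := by
    refine ⟨isFF_equiv e, ?_, ?_⟩
    · intro x hx halg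
      have h1 : Transcendental k (e.symm x) := by
        intro h
        apply hx
        have := h.algHom (e : F →ₐ[k] FN)
        simpa using this
      apply hC.tr _ h1
      have h2 : ((x : N) : NN).1 ∈ A0 := by
        rw [mem_algebraicClosure_iff]
        -- over the field `A0`
        let f : A →+* A0 := ((NN.val : NN →+* Ω).comp (algebraMap A N)).codRestrict A0
          fun a => (hAm _).1 a.2
        have h3 : IsAlgebraic A0 (((x : N) : NN) : Ω) :=
          halg.ringHom_of_comp_eq f (NN.val : NN →+* Ω) f.injective (by ext z; rfl)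
        exact h3.restrictScalars E
      rw [mem_algebraicClosure_iff] at h2
      have h3 : ((x : N) : NN).1 = algebraMap M Ω ((e.symm x : F) : M) := by
        have h4 := he (e.symm x)
        rw [e.apply_symm_apply] at h4
        rw [h4]
        exact hMNe _
      rw [h3] at h2
      exact (isAlgebraic_algebraMap_iff (algebraMap M Ω).injective).1 h2
    · rw [eq_top_iff]
      intro z _
      have h1 : NN ≤ (A ⊔ FN).map NN.val := by
        rw [IntermediateField.map_sup]
        refine sup_le_sup ?_ ?_
        · intro y hy
          exact ⟨⟨y, hA1 hy⟩, (hAm _).2 hy, rfl⟩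
        · intro y hy
          exact ⟨⟨y, hF1 hy⟩, (hFm _).2 hy, rfl⟩
      obtain ⟨z', hz', h2⟩ := h1 (z : NN).2
      have h3 : z' = z := Subtype.ext h2
      rw [← h3]
      exact hz'
  have hAclosed0 : IsAlgClosed A0 := (algebraicClosure.isAlgClosure E Ω).isAlgClosed
  have hAclosed : IsAlgClosed A := by
    let eA : A1 ≃ₐ[k] A := IntermediateField.restrictAlgEquiv hA1
    exact IsAlgClosed.of_ringEquiv A0 A (eA : A1 ≃+* A)
  -- the derivation
  have halgN : Algebra.IsAlgebraic M N := by
    constructor
    intro z
    have h1 : IsAlgebraic M ((z : NN) : Ω) := Algebra.IsAlgebraic.isAlgebraic _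
    obtain ⟨p, hp0, hp⟩ := h1
    refine ⟨p, hp0, Subtype.ext ?_⟩
    have h1 := Polynomial.hom_eval₂ p (algebraMap M N) (NN.val : NN →+* Ω) z
    have h2 : (NN.val : NN →+* Ω) (eval₂ (algebraMap M N) z p) = aeval ((z : NN) : Ω) p := by
      rw [aeval_def]
      exact h1
    rw [hp] at h2
    exact h2
  have htN : IsTranscendenceBasis k (algebraMap M N ∘ t) := ht.algebraMap_comp
  obtain ⟨Di, hDi⟩ := exists_dual (algebraMap M N ∘ t) htN i
  let DN : Derivation k N N := algebraMap M N (D' (t0 : M)) • Di
  have hDN : ∀ z, DN z = algebraMap M N (D' (t0 : M)) * Di z := fun z => rfl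
  let δ : Derivation k M N :=
    { toFun := fun z => DN (algebraMap M N z) - algebraMap M N (D' z)
      map_add' := fun a b => by
        rw [map_add, map_add, map_add, map_add]
        ring
      map_smul' := fun c a => by
        rw [RingHom.id_apply, Algebra.smul_def, map_mul, ← IsScalarTower.algebraMap_apply,
          ← Algebra.smul_def, DN.map_smul, ← Algebra.smul_def, D'.map_smul, Algebra.smul_def c (D' a),
          map_mul, ← IsScalarTower.algebraMap_apply, Algebra.smul_def, Algebra.smul_def]
        ring
      map_one_eq_zero' := by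
        change DN (algebraMap M N 1) - algebraMap M N (D' 1) = 0
        rw [map_one, DN.map_one_eq_zero, D'.map_one_eq_zero, map_zero, sub_zero]
      leibniz' := fun a b => by
        change DN (algebraMap M N (a * b)) - algebraMap M N (D' (a * b)) =
          a • (DN (algebraMap M N b) - algebraMap M N (D' b)) +
          b • (DN (algebraMap M N a) - algebraMap M N (D' a))
        rw [map_mul, DN.leibniz, D'.leibniz, map_add, smul_eq_mul, smul_eq_mul, smul_eq_mul,
          smul_eq_mul, map_mul, map_mul, Algebra.smul_def, Algebra.smul_def]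
        ring }
  have hδt : ∀ b, δ (t b) = 0 := by
    intro b
    change DN (algebraMap M N (t b)) - algebraMap M N (D' (t b)) = 0
    rw [hDN]
    have h1 := hDi b
    rw [Function.comp_apply] at h1
    rw [h1]
    by_cases hb : b = i
    · rw [if_pos hb, hb, hti, mul_one, sub_self]
    · rw [if_neg hb, hDE _ (htE b hb), map_zero, mul_zero, sub_zero]
  have hδ : ∀ z, δ z = 0 := by
    intro z
    refine der_alg (IntermediateField.adjoin k (Set.range t)) δ (fun y hy => ?_) ?_
    · induction hy using IntermediateField.adjoin_induction with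
      | mem y hy =>
        obtain ⟨b, rfl⟩ := hy
        exact hδt b
      | algebraMap c => exact δ.map_algebraMap c
      | add a b _ _ ha hb => rw [map_add, ha, hb, add_zero]
      | inv a _ ha =>
        by_cases ha0 : a = 0
        · rw [ha0, inv_zero, map_zero]
        · have h1 : δ (a * a⁻¹) = 0 := by rw [mul_inv_cancel₀ ha0, δ.map_one_eq_zero]
          rw [δ.leibniz, ha, smul_zero, add_zero] at h1
          exact (smul_eq_zero.1 h1).resolve_left ha0
      | mul a b _ _ ha hb => rw [δ.leibniz, ha, hb, smul_zero, smul_zero, add_zero]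
    · have h1 := ht.isAlgebraic_field
      exact h1.isAlgebraic z
  have hDM : ∀ z, DN (algebraMap M N z) = algebraMap M N (D' z) := fun z => by
    have h1 : DN (algebraMap M N z) - algebraMap M N (D' z) = 0 := hδ z
    exact sub_eq_zero.1 h1
  have hDA : ∀ a ∈ A, DN a = 0 := by
    intro a ha
    have h1 := hA a ha
    -- over the image of `E`
    let EN : IntermediateField k N := E.map ιN
    refine der_alg EN DN ?_ ?_
    · rintro _ ⟨z, hz, rfl⟩
      have h2 : DN (algebraMap M N z) = 0 := by
        rw [hDM, hDE z hz, map_zero]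
      exact h2
    · let f : E →+* EN := (algebraMap E N).codRestrict EN fun z => ⟨z, z.2, rfl⟩
      exact h1.ringHom_of_comp_eq f (RingHom.id N) f.injective (by ext z; rfl)
  have hDL : ∀ y : L, ∃ y' : L, DN (algebraMap L N y) = algebraMap L N y' := by
    intro y
    refine ⟨D y, ?_⟩
    rw [IsScalarTower.algebraMap_apply L M N, hDM, hDD, ← IsScalarTower.algebraMap_apply]
  have hDne : ∃ y : L, DN (algebraMap L N y) ≠ 0 := by
    by_contra hcon
    push Not at hcon
    apply hDt
    let LM : IntermediateField k M := (IsScalarTower.toAlgHom k L M).fieldRange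
    refine der_alg LM D' ?_ ?_
    · rintro _ ⟨y, rfl⟩
      have h1 := hcon y
      rw [IsScalarTower.algebraMap_apply L M N, hDM, map_eq_zero] at h1
      exact h1
    · let f : L →+* LM := (algebraMap L M).codRestrict LM fun z => ⟨z, rfl⟩
      have h1 : IsAlgebraic L (t0 : M) := Algebra.IsAlgebraic.isAlgebraic _
      exact h1.ringHom_of_comp_eq f (RingHom.id M) f.injective (by ext z; rfl)
  let Lb := IntermediateField.adjoin A (Set.range (algebraMap L N))
  have hrat : ∃ s : Lb, A⟮s⟯ = ⊤ := rational_up (L := L) hC hEL hCN hFN hFN' hEA hA hD0 ht0 D' DN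
    hDM hDA hDL hDne hrel
  obtain ⟨s, hs⟩ := hrat
  -- the conclusion
  have hcharA : CharZero A := charZero_M
  have hIN : IsFF A N := hCN.isFF
  have hfin : FiniteDimensional Lb N := (trace_up (L := L) hC hEL hCN hFN (fun z hz => by
    obtain ⟨y, -, h⟩ := hFN' z hz
    exact ⟨y, h⟩) hEA hA).1
  have hILb : IsFF A Lb := isFF_down (E0 := Lb) (E := N)
  have hst' : Transcendental A s := transcendental_of_top hs
  let EL := E.comap (IsScalarTower.toAlgHom k L M)
  have hELA : ∀ z : EL, algebraMap L N (z : L) ∈ A := by
    intro z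
    rw [IsScalarTower.algebraMap_apply L M N]
    exact hEA _ z.2
  let g0 : EL →+* A := ((algebraMap L N).comp (algebraMap EL L)).codRestrict A hELA
  let _ : Algebra EL A := g0.toAlgebra
  refine ⟨A, inferInstance, g0.toAlgebra, ?_, ?_⟩
  · constructor
    intro a
    have h1 := hA a.1 a.2
    have hl : ∀ c : E, ∃ y : EL, algebraMap L M (y : L) = (c : M) := by
      intro c
      obtain ⟨y, hy⟩ := hEL _ c.2
      refine ⟨⟨y, ?_⟩, hy⟩
      change algebraMap L M y ∈ E
      rw [hy]
      exact c.2
    choose l hl using hl
    have hinj : Function.Injective fun y : EL => algebraMap L M (y : L) := fun a b h =>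
      Subtype.ext ((algebraMap L M).injective h)
    let φ : E →+* EL :=
      { toFun := l
        map_one' := by
          apply hinj
          change algebraMap L M (l 1 : L) = algebraMap L M ((1 : EL) : L)
          rw [hl]
          simp
        map_mul' := by
          intro a b
          apply hinj
          change algebraMap L M (l (a * b) : L) = algebraMap L M ((l a : L) * (l b : L))
          rw [map_mul, hl, hl, hl]
          rfl
        map_zero' := by
          apply hinj
          change algebraMap L M (l 0 : L) = algebraMap L M ((0 : EL) : L)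
          rw [hl]
          simp
        map_add' := by
          intro a b
          apply hinj
          change algebraMap L M (l (a + b) : L) = algebraMap L M ((l a : L) + (l b : L))
          rw [map_add, hl, hl, hl]
          rfl }
    obtain ⟨p, hp0, hp⟩ := h1
    refine ⟨p.map φ, (Polynomial.map_ne_zero_iff φ.injective).2 hp0, ?_⟩
    apply Subtype.ext
    rw [aeval_def, eval₂_map]
    have h2 := Polynomial.hom_eval₂ p ((algebraMap EL A).comp φ) (A.val : A →+* N) a
    have h3 : (A.val : A →+* N).comp ((algebraMap EL A).comp φ) = algebraMap E N := by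
      refine RingHom.ext fun c => ?_
      change algebraMap L N (l c : L) = algebraMap M N (c : M)
      rw [IsScalarTower.algebraMap_apply L M N, hl]
    rw [h3] at h2
    rw [aeval_def] at hp
    exact h2.trans hp
  · -- the embedding
    let e1 : RatFunc A ≃ₐ[A] A⟮s⟯ := RatFunc.algEquivOfTranscendental s hst'
    let e2 : A⟮s⟯ ≃ₐ[A] Lb := (IntermediateField.equivOfEq hs).trans IntermediateField.topEquiv
    let e3 : Lb ≃ₐ[A] RatFunc A := (e1.trans e2).symm
    let ψ : L →+* Lb := (algebraMap L N).codRestrict Lb fun y =>
      IntermediateField.subset_adjoin A _ ⟨y, rfl⟩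
    refine ⟨{ toFun := fun y => e3 (ψ y)
              map_one' := by rw [map_one, map_one]
              map_mul' := fun a b => by rw [map_mul, map_mul]
              map_zero' := by rw [map_zero, map_zero]
              map_add' := fun a b => by rw [map_add, map_add]
              commutes' := fun c => ?_ }⟩
    have h1 : ψ (algebraMap EL L c) = algebraMap A Lb (g0 c) := Subtype.ext rfl
    change e3 (ψ (algebraMap EL L c)) = algebraMap EL (RatFunc A) c
    rw [h1, e3.commutes]
    rfl

/-- **The genus of the generic fibre.** -/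
theorem genus_zero_over (hC : Cur E F) (hEL : ∀ z ∈ E, z ∈ Set.range (algebraMap L M))
    {D0 : Derivation k F F} (hD0 : D0 ≠ 0) {t0 : F} (ht0 : Transcendental k t0)
    (D : Derivation k L L) (D' : Derivation k M M)
    (hDD : ∀ y, D' (algebraMap L M y) = algebraMap L M (D y)) (hDE : ∀ z ∈ E, D' z = 0)
    (hDt : D' (t0 : M) ≠ 0) (t : Fin n → M) (ht : IsTranscendenceBasis k t) (i : Fin n)
    (hti : t i = t0) (htE : ∀ b, b ≠ i → t b ∈ E)
    (hrel : ∀ f : F, RegDiff D0 f →
      Algebra.trace L M ((f : M) / (D0 t0 : M) * D' (t0 : M)) = 0) :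
    GenusZeroOver (E.comap (IsScalarTower.toAlgHom k L M)) :=
  genus_aux (AlgebraicClosure M) hC hEL hD0 ht0 D D' hDD hDE hDt t ht i hti htE hrel

end

end Q36.SD
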