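import Pool.Agent.Q36.SD.El
import Pool.Agent.Q36.SD.Fo
import Pool.Agent.Q36.SD.Lc
import Pool.Agent.W619.TW.Frame

/-!
Images of products of curves under maps of small degree: the dichotomy.
-/

set_option autoImplicit false
set_option linter.overlappingInstances false
set_option linter.unusedSectionVars false

open Polynomial FF IsDedekindDomain IntermediateField
open Pool.Agent.W602.GT Pool.Agent.W603.LV Pool.Agent.W619.PQ Pool.Agent.W619.TW

namespace Q36.SD

section

variable {k M : Type} [Field k] [CharZero k] [Field M] [Algebra k M] {n : ℕ}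

/-- the kernel of a derivation -/
def kerD (D : Derivation k M M) : IntermediateField k M where
  carrier := {z | D z = 0}
  mul_mem' := by
    intro a b ha hb
    simp only [Set.mem_ofPred_eq] at *
    rw [D.leibniz, ha, hb, smul_zero, smul_zero, add_zero]
  add_mem' := by
    intro a b ha hb
    simp only [Set.mem_ofPred_eq] at *
    rw [map_add, ha, hb, add_zero]
  algebraMap_mem' := by
    intro r
    simp only [Set.mem_ofPred_eq]
    exact D.map_algebraMap r
  inv_mem' := by
    intro a ha
    simp only [Set.mem_ofPred_eq] at *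
    by_cases ha0 : a = 0
    · rw [ha0, inv_zero, map_zero]
    · have h1 : D (a * a⁻¹) = 0 := by rw [mul_inv_cancel₀ ha0, D.map_one_eq_zero]
      rw [D.leibniz, ha, smul_zero, add_zero] at h1
      exact (smul_eq_zero.1 h1).resolve_left ha0

theorem mem_kerD (D : Derivation k M M) (z : M) : z ∈ kerD D ↔ D z = 0 := Iff.rfl

/-- the Jacobian of a transcendence basis with respect to a frame is not zero -/
theorem jac_ne {t y : Fin n → M} (ht : IsTranscendenceBasis k t) {E' : Fin n → Derivation k M M}
    (hE' : ∀ a b, E' a (y b) = if a = b then 1 else 0) :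
    (Matrix.of fun a b => E' a (t b)).det ≠ 0 := by
  intro h
  obtain ⟨v, hv0, hv⟩ := Matrix.exists_vecMul_eq_zero_iff.2 h
  apply hv0
  have h1 : ∀ b, (∑ a, v a • E' a) (t b) = 0 := by
    intro b
    have := congrFun hv b
    rw [Matrix.vecMul_eq_sum] at this
    rw [Pool.Agent.Y172.sum_smul_apply]
    rw [Finset.sum_apply] at this
    exact this
  have h2 : ∀ z, (∑ a, v a • E' a) z = 0 := by
    intro z
    refine der_alg (kerD (∑ a, v a • E' a)) _ (fun z hz => hz) ?_
    have h3 := ht.isAlgebraic_field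
    have h4 : IntermediateField.adjoin k (Set.range t) ≤ kerD (∑ a, v a • E' a) := by
      rw [IntermediateField.adjoin_le_iff]
      rintro _ ⟨b, rfl⟩
      exact h1 b
    let f : IntermediateField.adjoin k (Set.range t) →+* kerD (∑ a, v a • E' a) :=
      (IntermediateField.inclusion h4 : _ →+* _)
    exact (h3.isAlgebraic z).ringHom_of_comp_eq f (RingHom.id M) f.injective (by ext z; rfl)
  funext b
  have h3 := h2 (y b)
  rw [Pool.Agent.Y172.sum_smul_apply, Finset.sum_eq_single b] at h3
  · rw [hE', if_pos rfl, mul_one] at h3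
    exact h3
  · intro a _ hab
    rw [hE', if_neg hab, mul_zero]
  · intro h
    exact absurd (Finset.mem_univ b) h

end

section

variable {k L M : Type} [Field k] [CharZero k] [IsAlgClosed k] [Field L] [Field M]
  [Algebra k L] [Algebra k M] [Algebra L M] [IsScalarTower k L M] [FiniteDimensional L M]
  [Algebra.EssFiniteType k L] [Algebra.EssFiniteType k M]
  {n : ℕ} (F : Fin n → IntermediateField k M) [hF : ∀ i, IsFF k (F i)]

/-- a function field of gonality at least `2` has a nonzero regular differential -/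
theorem exists_reg_of_gon {K : Type} [Field K] [Algebra k K] [IsFF k K] {D : Derivation k K K}
    (hD : D ≠ 0) (hγ : ∀ b : K, Transcendental k b → 2 ≤ Module.finrank k⟮b⟯ K) :
    ∃ f : K, f ≠ 0 ∧ RegDiff D f := by
  have hrat : ¬ ∃ t : K, k⟮t⟯ = ⊤ := by
    rintro ⟨t, ht⟩
    have h1 := hγ t (transcendental_of_top ht)
    have h2 := IntermediateField.finrank_eq_one_iff_eq_top.2 ht
    omega
  obtain ⟨f, hf0, hf⟩ := exists_regular hrat hD
  exact ⟨f, hf0, fun P => Or.inr (hf P)⟩

/-- **Images of products of curves.** -/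
theorem small_degree (hn1 : 1 ≤ n) (hn : Algebra.trdeg k L = n) (hsup : ⨆ i, F i = ⊤)
    (hpg : PgZero k L n)
    (hγ : ∀ i, ∀ b : F i, Transcendental k b →
      Module.finrank L M + 3 ≤ 2 * Module.finrank k⟮b⟯ (F i)) :
    ∃ i, (∀ j, j ≠ i → ∀ z ∈ F j, z ∈ Set.range (algebraMap L M)) ∧
      GenusZeroOver ((⨆ j : {j : Fin n // j ≠ i}, F j.1).comap
        (IsScalarTower.toAlgHom k L M)) := by
  classical
  have hnM : Algebra.trdeg k M = n := Pool.Agent.Y172.trdeg_up (K := L) hn
  have hpos : 0 < Module.finrank L M := Module.finrank_pos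
  obtain ⟨y, E, hy, hE⟩ := Pool.Agent.Y172.exists_crd (k := k) (K := L) hn
  choose E' hE' using fun i => Pool.Agent.Y172.exists_lift (L := M) hn (E i)
  have hEd := Pool.Agent.Y172.lift_dual hE hE'
  choose t ht using fun i => IsFF.exists_transcendental (k := k) (K := F i)
  have hbt := basis_of_iSup F hsup hnM t ht
  let D0 : ∀ i, Derivation k (F i) (F i) := fun i => der k (F i)
  have hD0 : ∀ i, D0 i ≠ 0 := fun i => der_ne
  have hD0t : ∀ i, D0 i (t i) ≠ 0 := fun i => der_ne_zero (hD0 i) (ht i)
  have hD0tM : ∀ i, ((D0 i (t i) : F i) : M) ≠ 0 := fun i h => hD0t i (Subtype.ext h)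
  let T : Matrix (Fin n) (Fin n) M := Matrix.of fun a b => E' a (t b : M)
  have hT : T.det ≠ 0 := jac_ne hbt hEd
  -- the relation
  have hrel0 : ∀ f : ∀ i, F i, (∀ i, RegDiff (D0 i) (f i)) →
      Algebra.trace L M ((∏ i, ((f i : M) / (D0 i (t i) : M))) * T.det) = 0 := fun f hf =>
    trace_rel F hn hpg hD0 ht hf E E' hE'
  let J : M := (∏ i, ((D0 i (t i) : F i) : M))⁻¹ * T.det
  have hJ : J ≠ 0 :=
    mul_ne_zero (inv_ne_zero (Finset.prod_ne_zero_iff.2 fun i _ => hD0tM i)) hT
  have hdich := dichotomy F hsup D0 hD0 J hJ (fun f hf => by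
    rw [← hrel0 f hf, Finset.prod_div_distrib]
    congr 1
    change (∏ i, ((D0 i (t i) : F i) : M))⁻¹ * T.det * _ = _
    rw [div_eq_mul_inv]
    ring) hγ
  obtain ⟨i, hi⟩ : ∃ i, ∀ j, j ≠ i → ∀ z ∈ F j, z ∈ Set.range (algebraMap L M) := by
    by_cases h : ∀ i, ∀ z ∈ F i, z ∈ Set.range (algebraMap L M)
    · exact ⟨⟨0, hn1⟩, fun j _ => h j⟩
    · push Not at h
      obtain ⟨i, z, hz, hz2⟩ := h
      refine ⟨i, (hdich i).resolve_left ?_⟩
      intro h
      exact hz2 (h z hz)
  refine ⟨i, hi, ?_⟩
  -- the genus of the generic fibre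
  have hC := cur_MM F hsup hnM i
  have hEL : ∀ z ∈ MM F i, z ∈ Set.range (algebraMap L M) := by
    have h1 : MM F i ≤ (IsScalarTower.toAlgHom k L M).fieldRange := by
      refine iSup_le fun j z hz => ?_
      obtain ⟨y, hy⟩ := hi j.1 j.2 z hz
      exact ⟨y, hy⟩
    intro z hz
    obtain ⟨y, hy⟩ := h1 hz
    exact ⟨y, hy⟩
  -- the vector field
  have htL : ∀ b, ∃ z : L, b ≠ i → algebraMap L M z = (t b : M) := by
    intro b
    by_cases hb : b = i
    · exact ⟨0, fun h => absurd hb h⟩
    · obtain ⟨z, hz⟩ := hi b hb (t b) (t b).2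
      exact ⟨z, fun _ => hz⟩
  choose tL htL using htL
  let TL : Matrix (Fin n) (Fin n) L := Matrix.of fun a b => E a (tL b)
  let c : Fin n → L := fun a => TL.adjugate i a
  let D : Derivation k L L := ∑ a, c a • E a
  let D' : Derivation k M M := ∑ a, algebraMap L M (c a) • E' a
  have hD'e : ∀ z, D' z = ∑ a, algebraMap L M (c a) * E' a z := fun z =>
    Pool.Agent.Y172.sum_smul_apply _ _ _ _
  have hDD : ∀ z, D' (algebraMap L M z) = algebraMap L M (D z) := by
    intro z
    rw [hD'e]
    have h1 : D z = ∑ a, c a * E a z := Pool.Agent.Y172.sum_smul_apply _ _ _ _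
    rw [h1, map_sum]
    refine Finset.sum_congr rfl fun a _ => ?_
    rw [map_mul, hE']
  have hcr : ∀ v : Fin n → M, ∑ a, algebraMap L M (c a) * v a =
      ((TL.map (algebraMap L M)).updateCol i v).det := by
    intro v
    rw [← Matrix.cramer_apply, Matrix.cramer_eq_adjugate_mulVec]
    have h1 : (TL.map (algebraMap L M)).adjugate = TL.adjugate.map (algebraMap L M) :=
      ((algebraMap L M).map_adjugate TL).symm
    rw [h1]
    rfl
  have hDtb : ∀ b, b ≠ i → D' (t b : M) = 0 := by
    intro b hb
    rw [hD'e, hcr]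
    refine Matrix.det_zero_of_column_eq hb fun a => ?_
    rw [Matrix.updateCol_ne hb, Matrix.updateCol_self, Matrix.map_apply, ← htL b hb, hE']
    rfl
  have hDti : D' (t i : M) = T.det := by
    rw [hD'e, hcr]
    congr 1
    ext a b
    by_cases hb : b = i
    · rw [hb, Matrix.updateCol_self]
      rfl
    · rw [Matrix.updateCol_ne hb, Matrix.map_apply]
      change algebraMap L M (E a (tL b)) = E' a (t b : M)
      rw [← hE', htL b hb]
  have hDE : ∀ z ∈ MM F i, D' z = 0 := by
    have h1 : MM F i ≤ kerD D' := by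
      refine iSup_le fun j z hz => ?_
      obtain ⟨r, -, hr⟩ := ratio' (k := k) (K := M) (ht j.1) (⟨z, hz⟩ : F j.1)
      have h2 := hr D'
      change D' z = _ * D' (t j.1 : M) at h2
      rw [mem_kerD, h2, hDtb j.1 j.2, mul_zero]
    exact fun z hz => h1 hz
  -- the other factors
  have hfb : ∀ b, ∃ f : F b, f ≠ 0 ∧ RegDiff (D0 b) f := fun b =>
    exists_reg_of_gon (hD0 b) fun z hz => by
      have := hγ b z hz
      omega
  choose fb hfb0 hfbr using hfb
  have hrel : ∀ f : F i, RegDiff (D0 i) f →
      Algebra.trace L M ((f : M) / (D0 i (t i) : M) * D' (t i : M)) = 0 := by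
    intro f hf
    have h1 := hrel0 (Function.update fb i f) (fun b => by
      by_cases hb : b = i
      · subst hb
        rw [Function.update_self]
        exact hf
      · rw [Function.update_of_ne hb]
        exact hfbr b)
    rw [← Finset.mul_prod_erase Finset.univ _ (Finset.mem_univ i), Function.update_self] at h1
    have h2 : ∏ b ∈ Finset.univ.erase i,
        ((Function.update fb i f b : M) / (D0 b (t b) : M)) =
        ∏ b ∈ Finset.univ.erase i, ((fb b : M) / (D0 b (t b) : M)) := by
      refine Finset.prod_congr rfl fun b hb => ?_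
      rw [Function.update_of_ne (Finset.ne_of_mem_erase hb)]
    rw [h2] at h1
    have h3 : ∏ b ∈ Finset.univ.erase i, ((fb b : M) / (D0 b (t b) : M)) ∈
        (IsScalarTower.toAlgHom k L M).fieldRange := by
      refine prod_mem fun b hb => ?_
      have hb' := Finset.ne_of_mem_erase hb
      refine div_mem ?_ ?_
      · obtain ⟨z, hz⟩ := hi b hb' (fb b) (fb b).2
        exact ⟨z, hz⟩
      · obtain ⟨z, hz⟩ := hi b hb' (D0 b (t b)) (D0 b (t b)).2
        exact ⟨z, hz⟩
    obtain ⟨x, hx⟩ := h3
    change algebraMap L M x = _ at hx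
    have hx0 : x ≠ 0 := by
      rintro rfl
      rw [map_zero] at hx
      have h4 := Finset.prod_ne_zero_iff.2 fun b (_ : b ∈ Finset.univ.erase i) =>
        div_ne_zero (fun h => hfb0 b (Subtype.ext h) : ((fb b : F b) : M) ≠ 0) (hD0tM b)
      exact h4 hx.symm
    rw [← hx, ← hDti] at h1
    have h4 : (f : M) / (D0 i (t i) : M) * algebraMap L M x * D' (t i : M) =
        x • ((f : M) / (D0 i (t i) : M) * D' (t i : M)) := by
      rw [Algebra.smul_def]
      ring
    rw [h4, map_smul, smul_eq_mul] at h1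
    exact (mul_eq_zero.1 h1).resolve_left hx0
  exact genus_zero_over hC hEL (hD0 i) (ht i) D D' hDD hDE (by rw [hDti]; exact hT)
    (fun b => (t b : M)) hbt i rfl (fun b hb => le_MM F hb (t b).2) hrel

end

end Q36.SD
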